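import Pool.Agent.K9h46.TL.Stm

/-! Leaf ABL of `Pool/Agent/K9h46/TL/Stm.lean` (helper68): Abel means of a one-sided integrable function converge in
`L^1`. -/

set_option autoImplicit false

open MeasureTheory Filter Topology

namespace Pool.Agent.K9h46.TL

namespace AblAux

/-- the Haar probability measure of the circle -/
noncomputable abbrev mu : Measure Ci := AddCircle.haarAddCircle (T := 1)

/-- Abel mean -/
noncomputable def A (g : Ci → ℂ) (ρ : ℝ) (x : Ci) : ℂ :=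
  ∑' m : ℤ, fourierCoeff g m * (ρ : ℂ) ^ m.natAbs * fourier m x

lemma nf (m : ℤ) (x : Ci) : ‖(fourier m x : ℂ)‖ = 1 := by
  rw [fourier_apply]; exact Circle.norm_coe _

lemma coeff_le (g : Ci → ℂ) (m : ℤ) : ‖fourierCoeff g m‖ ≤ ∫ x, ‖g x‖ ∂mu := by
  unfold fourierCoeff
  refine (norm_integral_le_integral_norm _).trans (le_of_eq ?_)
  refine integral_congr_ae (ae_of_all _ fun x => ?_)
  simp only [norm_smul]
  rw [nf, one_mul]

lemma summ (g : Ci → ℂ) (ρ : ℝ) (h0 : 0 ≤ ρ) (h1 : ρ < 1) (x : Ci) :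
    Summable (fun m : ℤ => fourierCoeff g m * (ρ : ℂ) ^ m.natAbs * fourier m x) := by
  have hs : Summable (fun m : ℤ => (∫ x, ‖g x‖ ∂mu) * ρ ^ m.natAbs) := by
    apply Summable.mul_left
    apply Summable.of_nat_of_neg
    · simpa using summable_geometric_of_lt_one h0 h1
    · simpa using summable_geometric_of_lt_one h0 h1
  refine Summable.of_norm_bounded hs fun m => ?_
  rw [norm_mul, norm_mul, norm_pow, Complex.norm_real, Real.norm_of_nonneg h0, nf, mul_one]
  exact mul_le_mul_of_nonneg_right (coeff_le g m) (pow_nonneg h0 _)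

lemma A_congr {g h : Ci → ℂ} (e : g =ᵐ[mu] h) : A g = A h := by
  unfold A
  rw [fourierCoeff_congr_ae e]

lemma coeff_add {g h : Ci → ℂ} (hg : Integrable g mu) (hh : Integrable h mu) (m : ℤ) :
    fourierCoeff (fun x => g x + h x) m = fourierCoeff g m + fourierCoeff h m := by
  have := congrFun (fourierCoeff.add hg hh) m
  exact this

lemma A_add {g h : Ci → ℂ} (hg : Integrable g mu) (hh : Integrable h mu) (ρ : ℝ) (h0 : 0 ≤ ρ) (h1 : ρ < 1)
    (x : Ci) : A (fun x => g x + h x) ρ x = A g ρ x + A h ρ x := by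
  unfold A
  rw [← (summ g ρ h0 h1 x).tsum_add (summ h ρ h0 h1 x)]
  refine tsum_congr fun m => ?_
  rw [coeff_add hg hh]; ring

lemma A_smul (g : Ci → ℂ) (c : ℂ) (ρ : ℝ) (x : Ci) : A (fun x => c * g x) ρ x = c * A g ρ x := by
  unfold A
  rw [← tsum_mul_left]
  refine tsum_congr fun m => ?_
  rw [fourierCoeff.const_mul]; ring

lemma A_sub {g h : Ci → ℂ} (hg : Integrable g mu) (hh : Integrable h mu) (ρ : ℝ) (h0 : 0 ≤ ρ) (h1 : ρ < 1)
    (x : Ci) : A (fun x => g x - h x) ρ x = A g ρ x - A h ρ x := by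
  have e : (fun x => g x - h x) = (fun x => g x + (-1 : ℂ) * h x) := by
    funext y; ring
  rw [e, A_add hg (hh.const_mul (-1)) ρ h0 h1 x, A_smul]
  ring

/-- the Abel means of `g` converge to `g` in `L^1` -/
def Good (g : Ci → ℂ) : Prop :=
  Integrable g mu ∧ Tendsto (fun ρ : ℝ => ∫ x : Ci, ‖A g ρ x - g x‖ ∂mu) (𝓝[<] 1) (𝓝 0)

lemma good_congr {g h : Ci → ℂ} (e : g =ᵐ[mu] h) (hg : Good g) : Good h := by
  refine ⟨hg.1.congr e, hg.2.congr fun ρ => ?_⟩
  refine integral_congr_ae ?_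
  filter_upwards [e] with x hx
  rw [A_congr e, hx]

lemma A_int (hC : S_CON) {g : Ci → ℂ} (hg : Integrable g mu) (ρ : ℝ) (h0 : 0 ≤ ρ) (h1 : ρ < 1) :
    Integrable (A g ρ) mu := (hC g hg ρ h0 h1).1

lemma A_le (hC : S_CON) {g : Ci → ℂ} (hg : Integrable g mu) (ρ : ℝ) (h0 : 0 ≤ ρ) (h1 : ρ < 1) :
    ∫ x, ‖A g ρ x‖ ∂mu ≤ ∫ x, ‖g x‖ ∂mu := (hC g hg ρ h0 h1).2

lemma ev : ∀ᶠ ρ : ℝ in 𝓝[<] 1, 0 ≤ ρ ∧ ρ < 1 := by
  have h1 : ∀ᶠ ρ : ℝ in 𝓝[<] 1, ρ < 1 := self_mem_nhdsWithin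
  have h2 : ∀ᶠ ρ : ℝ in 𝓝[<] 1, 0 < ρ :=
    mem_nhdsWithin_of_mem_nhds (lt_mem_nhds (by norm_num : (0 : ℝ) < 1))
  filter_upwards [h1, h2] with ρ a b using ⟨b.le, a⟩

lemma good_add (hC : S_CON) {g h : Ci → ℂ} (hg : Good g) (hh : Good h) : Good (fun x => g x + h x) := by
  refine ⟨hg.1.add hh.1, ?_⟩
  have hs : Tendsto (fun ρ : ℝ => (∫ x : Ci, ‖A g ρ x - g x‖ ∂mu) + ∫ x : Ci, ‖A h ρ x - h x‖ ∂mu)
      (𝓝[<] 1) (𝓝 0) := by simpa using hg.2.add hh.2
  refine squeeze_zero' (Eventually.of_forall fun ρ => integral_nonneg fun x => norm_nonneg _) ?_ hs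
  filter_upwards [ev] with ρ hρ
  have i1 : Integrable (fun x => ‖A g ρ x - g x‖) mu := ((A_int hC hg.1 ρ hρ.1 hρ.2).sub hg.1).norm
  have i2 : Integrable (fun x => ‖A h ρ x - h x‖) mu := ((A_int hC hh.1 ρ hρ.1 hρ.2).sub hh.1).norm
  rw [← integral_add i1 i2]
  refine integral_mono_of_nonneg (ae_of_all _ fun x => norm_nonneg _) (i1.add i2) (ae_of_all _ fun x => ?_)
  simp only
  rw [A_add hg.1 hh.1 ρ hρ.1 hρ.2 x]
  calc ‖A g ρ x + A h ρ x - (g x + h x)‖ = ‖(A g ρ x - g x) + (A h ρ x - h x)‖ := by congr 1; ring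
    _ ≤ _ := norm_add_le _ _

lemma good_smul {g : Ci → ℂ} (c : ℂ) (hg : Good g) : Good (fun x => c * g x) := by
  refine ⟨hg.1.const_mul c, ?_⟩
  have hs : Tendsto (fun ρ : ℝ => ‖c‖ * ∫ x : Ci, ‖A g ρ x - g x‖ ∂mu)
      (𝓝[<] 1) (𝓝 0) := by simpa using hg.2.const_mul ‖c‖
  refine hs.congr fun ρ => ?_
  rw [← integral_const_mul]
  refine integral_congr_ae (ae_of_all _ fun x => ?_)
  simp only
  rw [A_smul, ← mul_sub, norm_mul]

lemma A_fourier (n : ℤ) (ρ : ℝ) (x : Ci) :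
    A (fun y => (fourier n y : ℂ)) ρ x = (ρ : ℂ) ^ n.natAbs * fourier n x := by
  unfold A
  have e : fourierCoeff (fun y : Ci => (fourier n y : ℂ)) = Pi.single n 1 := fourierCoeff_fourier n
  rw [e, tsum_eq_single n]
  · simp
  · intro m hm
    rw [Pi.single_eq_of_ne hm]; simp

lemma good_fourier (n : ℤ) : Good (fun y => (fourier n y : ℂ)) := by
  refine ⟨?_, ?_⟩
  · exact (map_continuous (fourier n)).integrable_of_hasCompactSupport (HasCompactSupport.of_compactSpace _)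
  · have hs : Tendsto (fun ρ : ℝ => |ρ ^ n.natAbs - 1|) (𝓝[<] 1) (𝓝 0) := by
      have hc : Continuous (fun ρ : ℝ => |ρ ^ n.natAbs - 1|) := by fun_prop
      have := (hc.tendsto 1).mono_left (nhdsWithin_le_nhds (s := Set.Iio 1))
      simpa using this
    refine hs.congr fun ρ => ?_
    have : ∀ x : Ci, ‖A (fun y => (fourier n y : ℂ)) ρ x - fourier n x‖ = |ρ ^ n.natAbs - 1| := by
      intro x
      rw [A_fourier]
      have : (ρ : ℂ) ^ n.natAbs * fourier n x - fourier n x = ((ρ ^ n.natAbs - 1 : ℝ) : ℂ) * fourier n x := by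
        push_cast; ring
      rw [this, norm_mul, nf, mul_one, Complex.norm_real, Real.norm_eq_abs]
    simp only [this]
    simp

lemma good_span (hC : S_CON) (H : Lp ℂ 1 mu) (hH : H ∈ Submodule.span ℂ (Set.range (fourierLp (T := 1) 1))) :
    Good (H : Ci → ℂ) := by
  induction hH using Submodule.span_induction with
  | mem x hx =>
    obtain ⟨n, rfl⟩ := hx
    exact good_congr (coeFn_fourierLp 1 n).symm (good_fourier n)
  | zero =>
    refine good_congr (g := fun x => (0 : ℂ) * fourier 0 x) ?_ (good_smul 0 (good_fourier 0))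
    filter_upwards [Lp.coeFn_zero ℂ 1 mu] with x hx
    rw [hx]; simp
  | add x y _ _ hx hy =>
    exact good_congr (Lp.coeFn_add x y).symm (good_add hC hx hy)
  | smul c x _ hx =>
    exact good_congr (Lp.coeFn_smul c x).symm (good_smul c hx)

lemma good_all (hC : S_CON) (g : Ci → ℂ) (hg : Integrable g mu) : Good g := by
  refine ⟨hg, ?_⟩
  rw [Metric.tendsto_nhds]
  intro ε hε
  have hm : hg.toL1 g ∈ (Submodule.span ℂ (Set.range (fourierLp (T := 1) 1))).topologicalClosure := by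
    rw [span_fourierLp_closure_eq_top (by simp)]; trivial
  rw [← SetLike.mem_coe, Submodule.topologicalClosure_coe] at hm
  obtain ⟨H, hH, hd⟩ := Metric.mem_closure_iff.mp hm (ε / 4) (by positivity)
  have hG := good_span hC H hH
  have hd' : ∫ x, ‖g x - H x‖ ∂mu < ε / 4 := by
    have e1 : dist (hg.toL1 g) H = ∫ x, ‖g x - H x‖ ∂mu := by
      rw [dist_eq_norm, L1.norm_eq_integral_norm]
      refine integral_congr_ae ?_
      filter_upwards [Lp.coeFn_sub (hg.toL1 g) H, Integrable.coeFn_toL1 hg] with x h1 h2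
      rw [h1, Pi.sub_apply, h2]
    rw [← e1]; exact hd
  have hev := (Metric.tendsto_nhds.mp hG.2) (ε / 4) (by positivity)
  filter_upwards [ev, hev] with ρ hρ h2
  rw [Real.dist_0_eq_abs, abs_of_nonneg (integral_nonneg fun x => norm_nonneg _)] at h2 ⊢
  have iH := hG.1
  have iD : Integrable (fun x => g x - H x) mu := hg.sub iH
  have k1 : Integrable (fun x => ‖A (fun x => g x - H x) ρ x‖) mu := (A_int hC iD ρ hρ.1 hρ.2).norm
  have k2 : Integrable (fun x => ‖A H ρ x - H x‖) mu := ((A_int hC iH ρ hρ.1 hρ.2).sub iH).norm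
  have k3 : Integrable (fun x => ‖g x - H x‖) mu := iD.norm
  have hb : ∫ x, ‖A g ρ x - g x‖ ∂mu ≤
      ∫ x, ((‖A (fun x => g x - H x) ρ x‖ + ‖A H ρ x - H x‖) + ‖g x - H x‖) ∂mu := by
    refine integral_mono_of_nonneg (ae_of_all _ fun x => norm_nonneg _) ((k1.add k2).add k3)
      (ae_of_all _ fun x => ?_)
    simp only
    rw [A_sub hg iH ρ hρ.1 hρ.2 x]
    calc ‖A g ρ x - g x‖ = ‖((A g ρ x - A H ρ x) + (A H ρ x - H x)) - (g x - H x)‖ := by congr 1; ring
      _ ≤ ‖(A g ρ x - A H ρ x) + (A H ρ x - H x)‖ + ‖g x - H x‖ := norm_sub_le _ _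
      _ ≤ _ := by
        have := norm_add_le (A g ρ x - A H ρ x) (A H ρ x - H x)
        linarith
  have k12 : Integrable (fun x => ‖A (fun x => g x - H x) ρ x‖ + ‖A H ρ x - H x‖) mu := k1.add k2
  rw [integral_add k12 k3, integral_add k1 k2] at hb
  have hle := A_le hC iD ρ hρ.1 hρ.2
  linarith

lemma F_eq (g : Ci → ℂ) (hg : One g) (ρ : ℝ) (x : Ci) : F g ((ρ : ℂ) * fourier 1 x) = A g ρ x := by
  unfold F A
  have hinj : Function.Injective (fun n : ℕ => (n : ℤ)) := Nat.cast_injective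
  rw [← hinj.tsum_eq (f := fun m : ℤ => fourierCoeff g m * (ρ : ℂ) ^ m.natAbs * fourier m x)]
  · refine tsum_congr fun n => ?_
    rw [mul_pow]
    have : (fourier 1 x : ℂ) ^ n = fourier (n : ℤ) x := by
      rw [fourier_apply, fourier_apply, one_zsmul, AddCircle.toCircle_zsmul, ← Circle.coe_pow]
      simp
    rw [this]
    simp only [Int.natAbs_natCast]
    ring
  · intro m hm
    by_contra hc
    have hneg : m < 0 := by
      by_contra h
      push Not at h
      exact hc ⟨m.toNat, by simp [h]⟩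
    exact hm (by simp only; rw [hg.2 m hneg]; ring)

lemma cont (g : Ci → ℂ) (ρ : ℝ) (h0 : 0 ≤ ρ) (h1 : ρ < 1) :
    Continuous (fun x : Ci => F g ((ρ : ℂ) * fourier 1 x)) := by
  unfold F
  have hs : Summable (fun m : ℕ => (∫ x, ‖g x‖ ∂mu) * ρ ^ m) :=
    (summable_geometric_of_lt_one h0 h1).mul_left _
  refine continuous_tsum (fun m => ?_) hs fun m x => ?_
  · have : Continuous (fun x : Ci => (fourier 1 x : ℂ)) := map_continuous (fourier 1)
    fun_prop
  · rw [norm_mul, norm_pow, norm_mul, Complex.norm_real, Real.norm_of_nonneg h0, nf, mul_one]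
    exact mul_le_mul_of_nonneg_right (coeff_le g m) (pow_nonneg h0 _)

end AblAux

open AblAux in
/-- Leaf ABL. -/
theorem abl : S_ABL := by
  intro hC g hg
  refine ⟨fun ρ h0 h1 => ⟨cont g ρ h0 h1, ?_⟩, ?_⟩
  · simp only [F_eq g hg]
    exact A_le hC hg.1 ρ h0 h1
  · simp only [F_eq g hg]
    exact (good_all hC g hg.1).2

end Pool.Agent.K9h46.TL
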