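import Pool.Agent.K9h46.TL.Stm

/-! Leaf ANA (helper3). -/

set_option autoImplicit false

open MeasureTheory Filter Topology

namespace Pool.Agent.K9h46.TL

theorem ana : S_ANA := by
  intro g hg
  set C : ℝ := ∫ x : Ci, ‖g x‖ ∂(AddCircle.haarAddCircle (T := 1)) with hC
  have hb : ∀ m : ℤ, ‖fourierCoeff g m‖ ≤ C := by
    intro m
    unfold fourierCoeff
    refine (norm_integral_le_integral_norm _).trans (le_of_eq ?_)
    refine integral_congr_ae (Eventually.of_forall fun x => ?_)
    have h1 : ‖(fourier (-m) x : ℂ)‖ = 1 := by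
      rw [fourier_apply]; exact Circle.norm_coe _
    show ‖(fourier (-m) x : ℂ) • g x‖ = ‖g x‖
    rw [norm_smul, h1, one_mul]
  set p : FormalMultilinearSeries ℂ ℂ ℂ :=
    FormalMultilinearSeries.ofScalars ℂ (fun m : ℕ => fourierCoeff g (m : ℤ)) with hp
  have hr : (1 : ENNReal) ≤ p.radius := by
    have : ∀ n, ‖p n‖ * (1 : NNReal) ^ n ≤ C := by
      intro n
      simp only [NNReal.coe_one, one_pow, mul_one]
      rw [hp, FormalMultilinearSeries.ofScalars_norm]
      exact hb n
    have h := p.le_radius_of_bound C (r := 1) this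
    simpa using h
  have hF : ∀ z : ℂ, F g z = p.sum z := by
    intro z
    unfold F
    rw [hp, FormalMultilinearSeries.sum]
    refine tsum_congr fun m => ?_
    simp [mul_comm]
  have hpos : 0 < p.radius := lt_of_lt_of_le (by norm_num) hr
  have hball := p.hasFPowerSeriesOnBall hpos
  intro z hz
  have hz' : z ∈ Metric.eball (0 : ℂ) p.radius := by
    rw [Metric.mem_eball, edist_dist]
    refine lt_of_lt_of_le ?_ hr
    rw [Metric.mem_ball] at hz
    rw [← ENNReal.ofReal_one]
    exact (ENNReal.ofReal_lt_ofReal_iff one_pos).2 hz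
  have := hball.analyticAt_of_mem hz'
  have hfun : F g = p.sum := funext hF
  rw [hfun]
  exact this

end Pool.Agent.K9h46.TL
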