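import Pool.Agent.K9h46.TL.Stm
import Pool.Agent.W418.FMK.P2a

/-!
# Leaf CIR (helper54): periodisation and its Fourier coefficients
-/

set_option autoImplicit false

open MeasureTheory Filter Topology

namespace Pool.Agent.K9h46.TL

lemma cir_ex_eq (s x : ℝ) : ex s x = FMT.PT.ex s x := rfl

lemma cir_integrable (f : ℝ → ℂ) (hf : Integrable f) (s : ℝ) :
    Integrable (fun x : ℝ => f x * ex s x) := by
  apply Integrable.mul_bdd (c := 1) hf (FMT.PT.ex_cont s).aestronglyMeasurable
  filter_upwards with x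
  rw [FMT.PT.ex_norm]

theorem cir : S_CIR := by
  intro f hf s
  have hgi : Integrable (fun x : ℝ => f x * ex s x) := cir_integrable f hf s
  set g : ℝ → ℂ := fun x => f x * ex s x with hg
  have hI : IntegrableOn (fun x : ℝ => ∑' k : ℤ, g (x + k)) (Set.Ioc 0 1) := by
    have h1 := FMT.PT.enorm_sum g hgi 1 one_pos
    simp only [mul_one] at h1
    exact FMT.PT.integrable_tsum' (μ := volume.restrict (Set.Ioc 0 1)) (fun (k : ℤ) x => g (x + k))
      (fun k => (hgi.comp_add_right (k : ℝ)).aestronglyMeasurable.restrict) h1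
  have hint : Integrable (per f s) (AddCircle.haarAddCircle (T := 1)) := by
    have h2 : MemLp (fun x : ℝ => ∑' k : ℤ, g (x + k)) 1 (volume.restrict (Set.Ioc 0 (0 + 1))) := by
      rw [zero_add]
      exact memLp_one_iff_integrable.2 hI
    exact memLp_one_iff_integrable.1 (h2.memLp_liftIoc.haarAddCircle)
  refine ⟨hint, fun m => ?_⟩
  rw [fourierCoeff_eq_intervalIntegral (per f s) m 0]
  have h3 : ∀ x ∈ Set.Ioc (0 : ℝ) 1, fourier (-m) (x : AddCircle (1 : ℝ)) • per f s (x : AddCircle (1 : ℝ)) =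
      (∑' k : ℤ, g (x + k * 1)) * FMT.PT.ex ((m : ℝ) / 1) x := by
    intro x hx
    have h4 : per f s (x : AddCircle (1 : ℝ)) = ∑' k : ℤ, g (x + k * 1) := by
      unfold per
      rw [AddCircle.liftIoc_coe_apply (by rwa [zero_add])]
      simp only [mul_one, hg]
    rw [h4, smul_eq_mul, mul_comm, fourier_coe_apply]
    congr 1
    unfold FMT.PT.ex
    congr 1
    push_cast
    ring
  have h5 : ∫ x in (0 : ℝ)..0 + 1, fourier (-m) (x : AddCircle (1 : ℝ)) • per f s (x : AddCircle (1 : ℝ)) =
      FMT.ft g ((m : ℝ) / 1) := by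
    rw [← FMT.PT.unfold_int g hgi 1 one_pos m, zero_add, intervalIntegral.integral_of_le zero_le_one]
    exact setIntegral_congr_fun measurableSet_Ioc h3
  rw [h5]
  unfold FMT.ft ft
  simp only [one_div, inv_one, one_smul, div_one, hg]
  congr 1
  ext x
  unfold ex
  rw [mul_assoc, ← Complex.exp_add]
  congr 2
  push_cast
  ring

end Pool.Agent.K9h46.TL
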