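import Pool.Agent.K9h46.TL.Stm
import Pool.Agent.W418.FMK.P3b

/-! Leaf COL (helper3). -/

set_option autoImplicit false

open MeasureTheory Filter Topology Complex FMT

namespace Pool.Agent.K9h46.TL

theorem bc_val (r : ℝ) (hr : |r| < 1) (m k : ℕ) (hm : 1 ≤ m) :
    bc r m k = ∑ l ∈ Finset.range (k + 1), (((l + (m - 1)).choose (m - 1) : ℂ) * (r : ℂ) ^ l) *
      ∑ i ∈ Finset.range (m + 1), if i + l = k then (m.choose i : ℂ) * (-(r : ℂ)) ^ (m - i) else 0 := by
  have hec := cfe_cont k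
  have hzc := cfz_cont
  let c : ℕ → ℂ := fun l => ((l + (m - 1)).choose (m - 1) : ℂ) * (r : ℂ) ^ l
  let g : ℕ → ℝ → ℂ := fun l x => c l * (cfe k x * (cfz x - r) ^ m * (cfz x) ^ l)
  have hm1 : m - 1 + 1 = m := by omega
  have hrn : ‖(r : ℂ)‖ < 1 := by rw [Complex.norm_real, Real.norm_eq_abs]; exact hr
  have hsum : ∀ x : ℝ, HasSum (fun l => g l x)
      (cfe k x * ((cfz x - r) / (1 - r * cfz x)) ^ m) := by
    intro x
    have hq : ‖(r : ℂ) * cfz x‖ < 1 := by rw [norm_mul, cfz_norm, mul_one]; exact hrn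
    have h1 := hasSum_choose_mul_geometric_of_norm_lt_one (m - 1) hq
    rw [hm1] at h1
    have h2 := h1.mul_left (cfe k x * (cfz x - r) ^ m)
    have e2 : cfe k x * (cfz x - r) ^ m * (1 / (1 - r * cfz x) ^ m) =
        cfe k x * ((cfz x - r) / (1 - r * cfz x)) ^ m := by
      rw [div_pow]; ring
    rw [e2] at h2
    have e3 : (fun l => g l x) = fun l => cfe k x * (cfz x - r) ^ m *
        (((l + (m - 1)).choose (m - 1) : ℂ) * ((r : ℂ) * cfz x) ^ l) := by
      ext l
      simp only [g, c]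
      rw [mul_pow]
      ring
    rw [e3]
    exact h2
  have hcs : Summable fun l => ‖c l‖ := by
    have h1 : Summable fun l : ℕ => ((l + (m - 1)).choose (m - 1) : ℝ) * |r| ^ l := by
      apply summable_choose_mul_geometric_of_norm_lt_one (m - 1)
      rw [Real.norm_eq_abs, abs_abs]
      exact hr
    refine h1.congr ?_
    intro l
    simp only [c]
    rw [norm_mul, norm_pow, Complex.norm_real, Real.norm_eq_abs, Complex.norm_natCast]
  have hbd : ∀ l x, ‖g l x‖ ≤ ‖c l‖ * 2 ^ m := by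
    intro l x
    show ‖c l * (cfe k x * (cfz x - r) ^ m * (cfz x) ^ l)‖ ≤ ‖c l‖ * 2 ^ m
    generalize c l = cl
    rw [norm_mul, norm_mul, norm_mul, cfe_norm, norm_pow, norm_pow, cfz_norm, one_pow, mul_one,
      one_mul]
    apply mul_le_mul_of_nonneg_left _ (norm_nonneg _)
    apply pow_le_pow_left₀ (norm_nonneg _)
    calc ‖cfz x - r‖ ≤ ‖cfz x‖ + ‖(r : ℂ)‖ := norm_sub_le _ _
      _ ≤ 2 := by rw [cfz_norm]; linarith
  have hint : HasSum (fun l => ∫ x in (0:ℝ)..1, g l x)
      (∫ x in (0:ℝ)..1, cfe k x * ((cfz x - r) / (1 - r * cfz x)) ^ m) := by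
    apply intervalIntegral.hasSum_integral_of_dominated_convergence (fun l _ => ‖c l‖ * 2 ^ m)
    · intro l
      exact (by simp only [g]; fun_prop : Continuous (g l)).aestronglyMeasurable
    · intro l
      exact Filter.Eventually.of_forall fun x _ => hbd l x
    · exact Filter.Eventually.of_forall fun x _ => hcs.mul_right _
    · exact intervalIntegrable_const
    · exact Filter.Eventually.of_forall fun x _ => hsum x
  have hv : ∀ l, (∫ x in (0:ℝ)..1, g l x) = c l * ∑ i ∈ Finset.range (m + 1),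
      if i + l = k then (m.choose i : ℂ) * (-(r : ℂ)) ^ (m - i) else 0 := by
    intro l
    simp only [g]
    rw [intervalIntegral.integral_const_mul, cf_int_term]
  change (∫ x in (0:ℝ)..1, cfe k x * ((cfz x - r) / (1 - r * cfz x)) ^ m) = _
  rw [← hint.tsum_eq, tsum_eq_sum (s := Finset.range (k + 1))]
  · refine Finset.sum_congr rfl fun l _ => ?_
    rw [hv l]
  · intro l hl
    rw [hv l]
    rw [Finset.mem_range] at hl
    rw [Finset.sum_eq_zero, mul_zero]
    intro i _
    rw [if_neg (by omega)]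

theorem col_sum (r : ℝ) (m k : ℕ) (_hm : 1 ≤ m) (hk : k ≤ m) :
    (∑ l ∈ Finset.range (k + 1), (((l + (m - 1)).choose (m - 1) : ℂ) * (r : ℂ) ^ l) *
      ∑ i ∈ Finset.range (m + 1), if i + l = k then (m.choose i : ℂ) * (-(r : ℂ)) ^ (m - i) else 0) =
    (-(r : ℂ)) ^ (m - k) * ((∑ l ∈ Finset.range (k + 1),
      ((l + (m - 1)).choose l : ℝ) * (m.choose (k - l) : ℝ) * (-(r ^ 2)) ^ l : ℝ) : ℂ) := by
  rw [Complex.ofReal_sum, Finset.mul_sum]
  refine Finset.sum_congr rfl fun l hl => ?_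
  rw [Finset.mem_range] at hl
  rw [Finset.sum_eq_single (k - l)]
  · rw [if_pos (by omega)]
    have h1 : (l + (m - 1)).choose (m - 1) = (l + (m - 1)).choose l := by
      rw [← Nat.choose_symm_of_eq_add (show l + (m - 1) = (m - 1) + l by omega)]
    rw [h1]
    have h2 : m - (k - l) = (m - k) + l := by omega
    rw [h2, pow_add]
    push_cast
    have h3 : (-(r : ℂ) ^ 2) ^ l = (r : ℂ) ^ l * (-(r : ℂ)) ^ l := by
      rw [← mul_pow]; congr 1; ring
    rw [h3]
    ring
  · intro i _ hi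
    rw [if_neg (by omega)]
  · intro h
    exact absurd (Finset.mem_range.mpr (by omega)) h

theorem choose_lim (j : ℕ) :
    Tendsto (fun m : ℕ => (m.choose j : ℝ) / (m : ℝ) ^ j) atTop (𝓝 (1 / (j.factorial : ℝ))) := by
  have h := isEquivalent_choose j
  have h0 : ∀ᶠ n : ℕ in atTop, (n : ℝ) ^ j / (j.factorial : ℝ) ≠ 0 := by
    filter_upwards [eventually_gt_atTop 0] with n hn
    positivity
  rw [Asymptotics.isEquivalent_iff_tendsto_one h0] at h
  have h2 := h.mul_const (1 / (j.factorial : ℝ))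
  rw [one_mul] at h2
  refine h2.congr' ?_
  filter_upwards [eventually_gt_atTop 0] with n hn
  have : (n : ℝ) ^ j ≠ 0 := by positivity
  have : (j.factorial : ℝ) ≠ 0 := by positivity
  simp only [Pi.div_apply]
  field_simp

theorem choose_lim' (l : ℕ) :
    Tendsto (fun m : ℕ => ((l + (m - 1)).choose l : ℝ) / (m : ℝ) ^ l) atTop (𝓝 (1 / (l.factorial : ℝ))) := by
  have h1 : Tendsto (fun m : ℕ => l + (m - 1)) atTop atTop := by
    rw [tendsto_atTop]
    intro b
    filter_upwards [eventually_ge_atTop (b + 1)] with m hm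
    omega
  have h2 := (choose_lim l).comp h1
  have h3 : Tendsto (fun m : ℕ => (((l + (m - 1) : ℕ) : ℝ) / (m : ℝ)) ^ l) atTop (𝓝 (1 ^ l)) := by
    apply Tendsto.pow
    have h4 : Tendsto (fun m : ℕ => 1 + ((l : ℝ) - 1) / (m : ℝ)) atTop (𝓝 (1 + 0)) :=
      tendsto_const_nhds.add (tendsto_const_div_atTop_nhds_zero_nat _)
    rw [add_zero] at h4
    refine h4.congr' ?_
    filter_upwards [eventually_ge_atTop 1] with m hm
    have h5 : ((l + (m - 1) : ℕ) : ℝ) = l + m - 1 := by
      push_cast [Nat.cast_sub hm]; ring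
    rw [h5]
    have : (m : ℝ) ≠ 0 := by positivity
    field_simp
    ring
  have h6 := h2.mul h3
  rw [one_pow, mul_one] at h6
  refine h6.congr' ?_
  filter_upwards [eventually_ge_atTop 2] with m hm
  simp only [Function.comp_apply]
  have h7 : ((l + (m - 1) : ℕ) : ℝ) ≠ 0 := by
    have : 0 < l + (m - 1) := by omega
    exact_mod_cast this.ne'
  have h8 : (m : ℝ) ≠ 0 := by positivity
  rw [div_pow]
  field_simp

theorem col : S_COL := by
  intro r hr hr0 k
  have hlim : Tendsto (fun m : ℕ => (∑ l ∈ Finset.range (k + 1),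
      ((l + (m - 1)).choose l : ℝ) * (m.choose (k - l) : ℝ) * (-(r ^ 2)) ^ l) / (m : ℝ) ^ k) atTop
      (𝓝 (∑ l ∈ Finset.range (k + 1), (1 / (l.factorial : ℝ)) * (1 / ((k - l).factorial : ℝ)) * (-(r ^ 2)) ^ l)) := by
    have h1 : Tendsto (fun m : ℕ => ∑ l ∈ Finset.range (k + 1),
        (((l + (m - 1)).choose l : ℝ) / (m : ℝ) ^ l) * ((m.choose (k - l) : ℝ) / (m : ℝ) ^ (k - l)) * (-(r ^ 2)) ^ l) atTop
        (𝓝 (∑ l ∈ Finset.range (k + 1), (1 / (l.factorial : ℝ)) * (1 / ((k - l).factorial : ℝ)) * (-(r ^ 2)) ^ l)) := by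
      apply tendsto_finsetSum
      intro l _
      exact ((choose_lim' l).mul (choose_lim (k - l))).mul_const _
    refine h1.congr' ?_
    filter_upwards [eventually_gt_atTop 0] with m hm
    rw [Finset.sum_div]
    refine Finset.sum_congr rfl fun l hl => ?_
    rw [Finset.mem_range] at hl
    have h2 : (m : ℝ) ^ k = (m : ℝ) ^ l * (m : ℝ) ^ (k - l) := by
      rw [← pow_add]; congr 1; omega
    rw [h2]
    have : (m : ℝ) ≠ 0 := by positivity
    field_simp
  have hval : (∑ l ∈ Finset.range (k + 1), (1 / (l.factorial : ℝ)) * (1 / ((k - l).factorial : ℝ)) * (-(r ^ 2)) ^ l) =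
      (1 - r ^ 2) ^ k / (k.factorial : ℝ) := by
    have h1 : (1 - r ^ 2) ^ k = ∑ l ∈ Finset.range (k + 1), (-(r ^ 2)) ^ l * 1 ^ (k - l) * (k.choose l : ℝ) := by
      rw [← add_pow]; congr 1; ring
    rw [h1, Finset.sum_div]
    refine Finset.sum_congr rfl fun l hl => ?_
    rw [Finset.mem_range] at hl
    have h2 : (k.choose l : ℝ) = (k.factorial : ℝ) / ((l.factorial : ℝ) * ((k - l).factorial : ℝ)) := by
      rw [Nat.cast_choose ℝ (by omega : l ≤ k)]
    rw [h2, one_pow]
    have : (k.factorial : ℝ) ≠ 0 := by positivity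
    have : (l.factorial : ℝ) ≠ 0 := by positivity
    have : ((k - l).factorial : ℝ) ≠ 0 := by positivity
    field_simp
  have hne : (1 - r ^ 2) ^ k / (k.factorial : ℝ) ≠ 0 := by
    have h1 : 1 - r ^ 2 ≠ 0 := by
      have : r ^ 2 < 1 := by
        rw [← sq_abs]; have := abs_nonneg r; nlinarith
      linarith
    have h2 : (k.factorial : ℝ) ≠ 0 := by positivity
    exact div_ne_zero (pow_ne_zero _ h1) h2
  rw [hval] at hlim
  have hev := hlim.eventually_ne hne
  have hev2 : ∀ᶠ m : ℕ in atTop, bc r m k ≠ 0 := by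
    filter_upwards [hev, eventually_ge_atTop 1, eventually_ge_atTop k] with m h1 h2 h3
    rw [bc_val r hr m k h2, col_sum r m k h2 h3]
    apply mul_ne_zero
    · apply pow_ne_zero
      rw [neg_ne_zero]
      exact_mod_cast hr0
    · rw [Complex.ofReal_ne_zero]
      intro h4
      exact h1 (by rw [h4, zero_div])
  rw [eventually_atTop] at hev2
  obtain ⟨N, hN⟩ := hev2
  refine (Set.finite_lt_nat N).subset ?_
  intro m hm
  by_contra h
  exact hN m (by simpa using h) hm

end Pool.Agent.K9h46.TL
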