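import Pool.Agent.K9h46.TL.Stm

/-!
# Leaf CON (helper62): the Poisson kernel and the contraction property of the Abel means
-/

set_option autoImplicit false

open MeasureTheory Filter Topology

namespace Pool.Agent.K9h46.TL

namespace CON_


lemma summ {ρ : ℝ} (h0 : 0 ≤ ρ) (h1 : ρ < 1) : Summable fun m : ℤ => ρ ^ m.natAbs := by
  apply Summable.of_nat_of_neg
  · simpa using summable_geometric_of_lt_one h0 h1
  · simpa using summable_geometric_of_lt_one h0 h1

lemma norm_fourier (m : ℤ) (x : Ci) : ‖fourier m x‖ = 1 := by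
  rw [fourier_apply, Circle.norm_coe]

lemma fourier_nat (n : ℕ) (x : Ci) : fourier (n : ℤ) x = (fourier 1 x) ^ n := by
  rw [fourier_apply, fourier_apply, one_zsmul, natCast_zsmul, AddCircle.toCircle_nsmul]
  rfl

lemma fourier_sub (m : ℤ) (x y : Ci) : fourier m (x - y) = fourier m x * fourier (-m) y := by
  rw [fourier_apply, fourier_apply, fourier_apply, smul_sub, sub_eq_add_neg,
    AddCircle.toCircle_add, neg_smul]
  rfl

/-- the Poisson kernel -/
noncomputable def PK (ρ : ℝ) (t : Ci) : ℂ := ∑' m : ℤ, (ρ : ℂ) ^ m.natAbs * fourier m t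

/-- the Poisson kernel, closed form -/
noncomputable def PR (ρ : ℝ) (t : Ci) : ℝ := (1 - ρ ^ 2) / Complex.normSq (1 - ρ * fourier 1 t)

lemma norm_term {ρ : ℝ} (h0 : 0 ≤ ρ) (m : ℤ) (t : Ci) :
    ‖(ρ : ℂ) ^ m.natAbs * fourier m t‖ = ρ ^ m.natAbs := by
  rw [norm_mul, norm_fourier, mul_one, norm_pow, Complex.norm_real, Real.norm_eq_abs,
    abs_of_nonneg h0]

lemma PR_nonneg {ρ : ℝ} (h0 : 0 ≤ ρ) (h1 : ρ < 1) (t : Ci) : 0 ≤ PR ρ t := by
  unfold PR
  have : ρ ^ 2 ≤ 1 := by nlinarith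
  exact div_nonneg (by linarith) (Complex.normSq_nonneg _)

lemma PK_eq {ρ : ℝ} (h0 : 0 ≤ ρ) (h1 : ρ < 1) (t : Ci) : PK ρ t = ((PR ρ t : ℝ) : ℂ) := by
  set z : ℂ := fourier 1 t with hz
  have hz1 : ‖z‖ = 1 := norm_fourier 1 t
  have hzz : z * (starRingEnd ℂ) z = 1 := by
    rw [Complex.mul_conj, Complex.normSq_eq_norm_sq, hz1]
    norm_num
  have hq : ‖(ρ : ℂ) * z‖ < 1 := by
    rw [norm_mul, hz1, mul_one, Complex.norm_real, Real.norm_eq_abs, abs_of_nonneg h0]
    exact h1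
  have hq' : ‖(ρ : ℂ) * (starRingEnd ℂ) z‖ < 1 := by
    rw [norm_mul, RCLike.norm_conj, hz1, mul_one, Complex.norm_real, Real.norm_eq_abs,
      abs_of_nonneg h0]
    exact h1
  have hs1 : HasSum (fun n : ℕ => (ρ : ℂ) ^ ((n : ℤ)).natAbs * fourier (n : ℤ) t)
      (1 - ρ * z)⁻¹ := by
    have h := hasSum_geometric_of_norm_lt_one hq
    have e : (fun n : ℕ => (ρ : ℂ) ^ ((n : ℤ)).natAbs * fourier (n : ℤ) t) =
        fun n => ((ρ : ℂ) * z) ^ n := by
      funext n
      rw [fourier_nat, Int.natAbs_natCast, mul_pow]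
    rw [e]
    exact h
  have hs2 : HasSum (fun n : ℕ => (ρ : ℂ) ^ ((-((n : ℤ) + 1))).natAbs * fourier (-((n : ℤ) + 1)) t)
      ((ρ * (starRingEnd ℂ) z) * (1 - ρ * (starRingEnd ℂ) z)⁻¹) := by
    have h := (hasSum_geometric_of_norm_lt_one hq').mul_left (ρ * (starRingEnd ℂ) z)
    have e : (fun n : ℕ => (ρ : ℂ) ^ ((-((n : ℤ) + 1))).natAbs * fourier (-((n : ℤ) + 1)) t) =
        fun n => (ρ : ℂ) * (starRingEnd ℂ) z * ((ρ : ℂ) * (starRingEnd ℂ) z) ^ n := by
      funext n
      have e1 : ((n : ℤ) + 1) = ((n + 1 : ℕ) : ℤ) := by push_cast; rfl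
      rw [fourier_neg, e1, fourier_nat, Int.natAbs_neg, Int.natAbs_natCast, map_pow, ← hz,
        ← mul_pow, pow_succ']
    rw [e]
    exact h
  have hs := HasSum.of_nat_of_neg_add_one (f := fun m : ℤ => (ρ : ℂ) ^ m.natAbs * fourier m t)
    hs1 hs2
  unfold PK
  rw [hs.tsum_eq]
  unfold PR
  rw [← hz]
  have n1 : (1 - ρ * z : ℂ) ≠ 0 := by
    intro h
    rw [sub_eq_zero] at h
    rw [← h, norm_one] at hq
    exact lt_irrefl _ hq
  have n2 : (1 - ρ * (starRingEnd ℂ) z : ℂ) ≠ 0 := by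
    intro h
    rw [sub_eq_zero] at h
    rw [← h, norm_one] at hq'
    exact lt_irrefl _ hq'
  have e : ((Complex.normSq (1 - ρ * z) : ℝ) : ℂ) = (1 - ρ * z) * (1 - ρ * (starRingEnd ℂ) z) := by
    rw [← Complex.mul_conj]
    simp
  push_cast
  rw [e]
  field_simp
  linear_combination (-(ρ : ℂ) ^ 2) * hzz

lemma continuous_PK {ρ : ℝ} (h0 : 0 ≤ ρ) (h1 : ρ < 1) : Continuous (PK ρ) := by
  refine continuous_tsum (fun m => ?_) (summ h0 h1) fun m t => (norm_term h0 m t).le
  exact continuous_const.mul (map_continuous (fourier m))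

lemma continuous_PR {ρ : ℝ} (h0 : 0 ≤ ρ) (h1 : ρ < 1) : Continuous (PR ρ) := by
  have h : PR ρ = fun t => (PK ρ t).re := by
    funext t
    rw [PK_eq h0 h1, Complex.ofReal_re]
  rw [h]
  exact Complex.continuous_re.comp (continuous_PK h0 h1)

lemma PR_le {ρ : ℝ} (h0 : 0 ≤ ρ) (h1 : ρ < 1) : ∃ B : ℝ, ∀ t : Ci, ‖PR ρ t‖ ≤ B := by
  obtain ⟨B, hB⟩ := (isCompact_range (continuous_PR h0 h1)).isBounded.exists_norm_le
  exact ⟨B, fun t => hB _ ⟨t, rfl⟩⟩

lemma integral_fourier (m : ℤ) : ∫ t : Ci, fourier m t ∂(AddCircle.haarAddCircle (T := (1 : ℝ))) = if m = 0 then 1 else 0 := by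
  have h := congrFun (fourierCoeff_fourier (T := 1) m) 0
  unfold fourierCoeff at h
  simp only [neg_zero, fourier_zero, smul_eq_mul, one_mul] at h
  rw [h, Pi.single_apply]
  simp only [eq_comm]

lemma integral_PR {ρ : ℝ} (h0 : 0 ≤ ρ) (h1 : ρ < 1) : ∫ t : Ci, PR ρ t ∂(AddCircle.haarAddCircle (T := (1 : ℝ))) = 1 := by
  have h2 : HasSum (fun m : ℤ => ∫ t : Ci, (ρ : ℂ) ^ m.natAbs * fourier m t ∂(AddCircle.haarAddCircle (T := (1 : ℝ))))
      (∫ t : Ci, PK ρ t ∂(AddCircle.haarAddCircle (T := (1 : ℝ)))) := by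
    refine hasSum_integral_of_summable_integral_norm (fun m => ?_) ?_
    · refine Continuous.integrable_of_hasCompactSupport ?_ (HasCompactSupport.of_compactSpace _)
      exact continuous_const.mul (map_continuous (fourier m))
    · simp only [norm_term h0, integral_const, smul_eq_mul]
      simpa using summ h0 h1
  have h3 : HasSum (fun m : ℤ => ∫ t : Ci, (ρ : ℂ) ^ m.natAbs * fourier m t ∂(AddCircle.haarAddCircle (T := (1 : ℝ)))) 1 := by
    have h4 : (fun m : ℤ => ∫ t : Ci, (ρ : ℂ) ^ m.natAbs * fourier m t ∂(AddCircle.haarAddCircle (T := (1 : ℝ)))) =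
        fun m => if m = 0 then 1 else 0 := by
      funext m
      rw [integral_const_mul, integral_fourier]
      split_ifs with h
      · simp [h]
      · simp
    rw [h4]
    exact hasSum_ite_eq 0 1
  have h5 := h2.unique h3
  have h6 : (fun t : Ci => PK ρ t) = fun t => ((PR ρ t : ℝ) : ℂ) := funext fun t => PK_eq h0 h1 t
  rw [h6, integral_complex_ofReal] at h5
  exact_mod_cast h5

/-- the Abel mean is a convolution -/
lemma abel {g : Ci → ℂ} (hg : Integrable g (AddCircle.haarAddCircle (T := (1 : ℝ)))) {ρ : ℝ} (h0 : 0 ≤ ρ) (h1 : ρ < 1) (x : Ci) :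
    ∑' m : ℤ, fourierCoeff g m * (ρ : ℂ) ^ m.natAbs * fourier m x =
      ∫ y : Ci, PK ρ (x - y) * g y ∂(AddCircle.haarAddCircle (T := (1 : ℝ))) := by
  have key : ∀ (m : ℤ) (y : Ci), (ρ : ℂ) ^ m.natAbs * fourier m (x - y) * g y =
      ((ρ : ℂ) ^ m.natAbs * fourier m x) * (fourier (-m) y • g y) := fun m y => by
    rw [fourier_sub, smul_eq_mul]; ring
  have h2 : HasSum (fun m : ℤ => ∫ y : Ci, (ρ : ℂ) ^ m.natAbs * fourier m (x - y) * g y ∂(AddCircle.haarAddCircle (T := (1 : ℝ))))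
      (∫ y : Ci, ∑' m : ℤ, (ρ : ℂ) ^ m.natAbs * fourier m (x - y) * g y ∂(AddCircle.haarAddCircle (T := (1 : ℝ)))) := by
    refine hasSum_integral_of_summable_integral_norm (fun m => ?_) ?_
    · simp only [key]
      exact (hg.fourier_smul (-m)).const_mul _
    · have e : (fun m : ℤ => ∫ y : Ci, ‖(ρ : ℂ) ^ m.natAbs * fourier m (x - y) * g y‖ ∂(AddCircle.haarAddCircle (T := (1 : ℝ)))) =
          fun m : ℤ => ρ ^ m.natAbs * ∫ y : Ci, ‖g y‖ ∂(AddCircle.haarAddCircle (T := (1 : ℝ))) := by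
        funext m
        rw [← integral_const_mul]
        refine integral_congr_ae (ae_of_all _ fun y => ?_)
        simp only
        rw [norm_mul, norm_term h0]
      rw [e]
      exact (summ h0 h1).mul_right _
  have h3 : (fun m : ℤ => ∫ y : Ci, (ρ : ℂ) ^ m.natAbs * fourier m (x - y) * g y ∂(AddCircle.haarAddCircle (T := (1 : ℝ)))) =
      fun m : ℤ => fourierCoeff g m * (ρ : ℂ) ^ m.natAbs * fourier m x := by
    funext m
    simp only [key]
    rw [integral_const_mul, fourierCoeff]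
    ring
  rw [h3] at h2
  rw [h2.tsum_eq]
  refine integral_congr_ae (ae_of_all _ fun y => ?_)
  simp only
  rw [tsum_mul_right]
  rfl

end CON_

open CON_ in
/-- **CON** -/
theorem con : S_CON := by
  intro g hg ρ h0 h1
  simp only [abel hg h0 h1]
  obtain ⟨B, hB⟩ := PR_le h0 h1
  -- the product
  have hprod : Integrable (Function.uncurry fun x y : Ci => PR ρ (x - y) * ‖g y‖)
      ((AddCircle.haarAddCircle (T := (1 : ℝ))).prod (AddCircle.haarAddCircle (T := (1 : ℝ)))) := by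
    have h2 : Integrable (fun z : Ci × Ci => ‖g z.2‖)
        ((AddCircle.haarAddCircle (T := (1 : ℝ))).prod (AddCircle.haarAddCircle (T := (1 : ℝ)))) :=
      hg.norm.comp_snd _
    refine h2.bdd_mul (c := B) ?_ (ae_of_all _ fun z => hB _)
    exact ((continuous_PR h0 h1).comp (continuous_fst.sub continuous_snd)).aestronglyMeasurable
  have hprod' : Integrable (Function.uncurry fun x y : Ci => PK ρ (x - y) * g y)
      ((AddCircle.haarAddCircle (T := (1 : ℝ))).prod (AddCircle.haarAddCircle (T := (1 : ℝ)))) := by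
    have h2 : Integrable (fun z : Ci × Ci => g z.2)
        ((AddCircle.haarAddCircle (T := (1 : ℝ))).prod (AddCircle.haarAddCircle (T := (1 : ℝ)))) :=
      hg.comp_snd _
    refine h2.bdd_mul (c := B) ?_ (ae_of_all _ fun z => ?_)
    · exact ((continuous_PK h0 h1).comp (continuous_fst.sub continuous_snd)).aestronglyMeasurable
    · rw [PK_eq h0 h1, Complex.norm_real]
      exact hB _
  have hA : Integrable (fun x : Ci => ∫ y : Ci, PK ρ (x - y) * g y
      ∂(AddCircle.haarAddCircle (T := (1 : ℝ)))) (AddCircle.haarAddCircle (T := (1 : ℝ))) :=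
    hprod'.integral_prod_left
  refine ⟨hA, ?_⟩
  have hle : ∀ x : Ci, ‖∫ y : Ci, PK ρ (x - y) * g y ∂(AddCircle.haarAddCircle (T := (1 : ℝ)))‖ ≤
      ∫ y : Ci, PR ρ (x - y) * ‖g y‖ ∂(AddCircle.haarAddCircle (T := (1 : ℝ))) := fun x => by
    refine (norm_integral_le_integral_norm _).trans (le_of_eq ?_)
    refine integral_congr_ae (ae_of_all _ fun y => ?_)
    simp only
    rw [norm_mul, PK_eq h0 h1, Complex.norm_real, Real.norm_eq_abs,
      abs_of_nonneg (PR_nonneg h0 h1 _)]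
  refine (integral_mono hA.norm hprod.integral_prod_left hle).trans (le_of_eq ?_)
  simp only [Function.uncurry_apply_pair]
  rw [integral_integral_swap hprod]
  refine integral_congr_ae (ae_of_all _ fun y => ?_)
  simp only
  rw [integral_mul_const, integral_sub_right_eq_self (μ := AddCircle.haarAddCircle (T := (1 : ℝ)))
    (fun t => PR ρ t) y, integral_PR h0 h1, one_mul]

end Pool.Agent.K9h46.TL
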