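import Pool.Agent.K9h46.TL.Stm
import Pool.Agent.W418.FMK.Final

/-!
# Tilings by functions with finite-measure support (helper46): the criterion and the Kurasov-Sarnak sets
-/

set_option autoImplicit false

open MeasureTheory Filter Topology

namespace Pool.Agent.K9h46.TL

/-- the conclusion of UNI -/
def S_UNIC : Prop := ∀ (f : ℝ → ℂ) (a b : ℝ), 0 < a → 0 < b → Irrational (a / b) → Integrable f →
  volume {x | f x ≠ 0} < ⊤ →
  (∀ m : ℕ, 1 ≤ m → {n : ℕ | ft f (a * m + b * n) ≠ 0}.Finite) →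
  (∀ n : ℕ, 1 ≤ n → {m : ℕ | ft f (a * m + b * n) ≠ 0}.Finite) → f =ᵐ[volume] 0

/-- tilings and the means -/
theorem crit (hu : S_UNIC) (L : Set ℝ) (hL : FMT.BD L) (a b : ℝ) (ha : 0 < a) (hb : 0 < b) (hab : Irrational (a / b))
    (h1 : ∀ m : ℕ, 1 ≤ m → {n : ℕ | 1 ≤ n ∧ Tendsto (FMT.mean L (a * m + b * n)) atTop (𝓝 0)}.Finite)
    (h2 : ∀ n : ℕ, 1 ≤ n → {m : ℕ | 1 ≤ m ∧ Tendsto (FMT.mean L (a * m + b * n)) atTop (𝓝 0)}.Finite)
    (f : ℝ → ℂ) (hf : Integrable f) (hs : volume {x | f x ≠ 0} < ⊤) (w : ℂ)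
    (ht : ∀ᵐ x : ℝ, Summable (fun l : L => f (x - l)) ∧ ∑' l : L, f (x - l) = w) : f =ᵐ[volume] 0 := by
  have key : ∀ m n : ℕ, 1 ≤ m → 1 ≤ n → ¬ Tendsto (FMT.mean L (a * m + b * n)) atTop (𝓝 0) →
      ft f (a * m + b * n) = 0 := by
    intro m n hm hn h
    have hm0 : (0 : ℝ) < m := by exact_mod_cast hm
    have hn0 : (0 : ℝ) < n := by exact_mod_cast hn
    exact FMT.link L hL (a * m + b * n) (by positivity) h f hf w ht
  refine hu f a b ha hb hab hf hs (fun m hm => ?_) (fun n hn => ?_)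
  · refine ((h1 m hm).union (Set.finite_singleton 0)).subset ?_
    intro n hn
    rw [Set.mem_union, Set.mem_singleton_iff]
    rcases Nat.eq_zero_or_pos n with h0 | h0
    · exact Or.inr h0
    · refine Or.inl ⟨h0, ?_⟩
      by_contra hcon
      exact hn (key m n hm h0 hcon)
  · refine ((h2 n hn).union (Set.finite_singleton 0)).subset ?_
    intro m hm
    rw [Set.mem_union, Set.mem_singleton_iff]
    rcases Nat.eq_zero_or_pos m with h0 | h0
    · exact Or.inr h0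
    · refine Or.inl ⟨h0, ?_⟩
      by_contra hcon
      exact hm (key m n h0 hn hcon)

/-- the Kurasov-Sarnak sets -/
theorem ks_all (hu : S_UNIC) (hrow : S_ROW) (hcol : S_COL) (α r : ℝ) (hα : 0 < α) (hirr : Irrational α) (hr : |r| < 1)
    (hr0 : r ≠ 0) :
    FMT.BD (FMT.ks α r) ∧ ∀ (f : ℝ → ℂ), Integrable f → volume {x | f x ≠ 0} < ⊤ → ∀ (w : ℂ),
      (∀ᵐ x : ℝ, Summable (fun l : FMT.ks α r => f (x - l)) ∧ ∑' l : FMT.ks α r, f (x - l) = w) →
      f =ᵐ[volume] 0 := by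
  obtain ⟨Φ, h0, hmono, hsurj, hder, hper, hexp, hmem⟩ := FMT.phase α r hα hr
  have hL : ∀ x, x ∈ FMT.ks α r ↔ ∃ n : ℤ, Φ x = n := by
    intro x
    rw [hmem x]
    rfl
  have hBD : FMT.BD (FMT.ks α r) := FMT.bd_of_phase α hα Φ hmono hper _ hL
  refine ⟨hBD, fun f hf hs w ht => ?_⟩
  have hne : ∀ m k : ℕ, 1 ≤ m → Tendsto (FMT.mean (FMT.ks α r) (α * m + 1 * k)) atTop (𝓝 0) → bc r m k = 0 := by
    intro m k hm hcon
    have h1 := FMT.mean_tendsto α r hα hirr hr Φ h0 hmono hsurj hder hper hexp _ hL m k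
    have h3 : α * m + 1 * k = (k : ℝ) + m * α := by ring
    rw [h3] at hcon
    have h2 := tendsto_nhds_unique hcon h1
    rw [FMT.ibp r α hr m k hm] at h2
    rcases mul_eq_zero.mp h2.symm with h3 | h3
    · exfalso
      have h4 : α + (k : ℝ) / m = 0 := by exact_mod_cast h3
      have : 0 ≤ (k : ℝ) / m := by positivity
      linarith
    · exact h3
  refine crit hu (FMT.ks α r) hBD α 1 hα one_pos (by rwa [div_one]) (fun m hm => ?_) (fun k hk => ?_) f hf hs w ht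
  · exact (hrow r hr hr0 m hm).subset fun k hk => hne m k hm hk.2
  · exact (hcol r hr hr0 k).subset fun m hm => hne m k hm.1 hm.2

end Pool.Agent.K9h46.TL
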