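import Mathlib

/-!
# Tilings by functions with finite-measure support (MP_731e7b_an): leaves (helper46)

GOAL. Let `f` be integrable on the real line with support of finite measure, `a, b > 0` with `a / b` irrational. If for
each `m ≥ 1` only finitely many `ft f (a m + b n)`, `n ≥ 1`, are not zero, and for each `n ≥ 1` only finitely many of them,
`m ≥ 1`, then `f = 0`. Consequence: no nonzero such `f` tiles with a Kurasov-Sarnak set (all real parameters `r`).

PROOF. `P_n(x) = ∑_k f(x + k) e(-α n (x + k))` has a one-sided spectrum up to a shift. The Hankel determinant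
`D_r = det (P_(i+j+1))_(i, j < r)` is zero at `x` if `r > N(x) = #{k : f(x + k) ≠ 0}` and not zero if `r = N(x)`. As a
polynomial in boundary values of analytic functions it is zero almost everywhere or almost nowhere (Jensen, Fatou). So
`N(x)` is constant and the measure of the support is an integer; by scaling the same is true for `α` times this measure.

Each `S_...` is one leaf; file of the leaf NAME: `Pool/Agent/K9h46/TL/Name.lean`, theorem `name : S_NAME` in the
namespace below, importing only this file (and Mathlib) unless said otherwise.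
-/

set_option autoImplicit false

open MeasureTheory Filter Topology

namespace Pool.Agent.K9h46.TL

/-- the circle with its Haar probability measure -/
abbrev Ci : Type := UnitAddCircle

/-- integrable with one-sided spectrum -/
def One (g : Ci → ℂ) : Prop :=
  Integrable g (AddCircle.haarAddCircle (T := 1)) ∧ ∀ m : ℤ, m < 0 → fourierCoeff g m = 0

/-- the analytic function in the unit disc -/
noncomputable def F (g : Ci → ℂ) (z : ℂ) : ℂ := ∑' m : ℕ, fourierCoeff g (m : ℤ) * z ^ m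

/-- the Fourier transform `∫ f(x) exp(-2 π i s x) dx` -/
noncomputable def ft (f : ℝ → ℂ) (s : ℝ) : ℂ :=
  ∫ x : ℝ, f x * Complex.exp (-(2 * Real.pi * s * x : ℝ) * Complex.I)

/-- `e(-s x)` -/
noncomputable def ex (s x : ℝ) : ℂ := Complex.exp (-(2 * Real.pi * s * x : ℝ) * Complex.I)

/-- LEAF CON (Poisson kernel, contraction): for every integrable `g` on the circle and `0 ≤ ρ < 1` the Abel mean
`A_ρ g (x) = ∑_m ρ^|m| ĝ(m) e(m x)` is the convolution with the Poisson kernel `P_ρ ≥ 0` of integral one. -/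
def S_CON : Prop := ∀ g : Ci → ℂ, Integrable g (AddCircle.haarAddCircle (T := 1)) → ∀ ρ : ℝ, 0 ≤ ρ → ρ < 1 →
  Integrable (fun x : Ci => ∑' m : ℤ, fourierCoeff g m * (ρ : ℂ) ^ m.natAbs * fourier m x) (AddCircle.haarAddCircle (T := 1)) ∧
  ∫ x : Ci, ‖∑' m : ℤ, fourierCoeff g m * (ρ : ℂ) ^ m.natAbs * fourier m x‖ ∂(AddCircle.haarAddCircle (T := 1)) ≤
    ∫ x : Ci, ‖g x‖ ∂(AddCircle.haarAddCircle (T := 1))

/-- LEAF ABL (from CON): the Abel means converge in `L^1`; by CON and the density of trigonometric polynomials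
(`span_fourierLp_closure_eq_top` with `p = 1`, `Mathlib/Analysis/Fourier/AddCircle.lean`). For a one-sided `g` the Abel
mean at `x` is `F g (ρ e(x))`. -/
def S_ABL : Prop := S_CON → ∀ g : Ci → ℂ, One g →
  (∀ ρ : ℝ, 0 ≤ ρ → ρ < 1 → Continuous (fun x : Ci => F g ((ρ : ℂ) * fourier 1 x)) ∧
    ∫ x : Ci, ‖F g ((ρ : ℂ) * fourier 1 x)‖ ∂(AddCircle.haarAddCircle (T := 1)) ≤
      ∫ x : Ci, ‖g x‖ ∂(AddCircle.haarAddCircle (T := 1))) ∧
  Tendsto (fun ρ : ℝ => ∫ x : Ci, ‖F g ((ρ : ℂ) * fourier 1 x) - g x‖ ∂(AddCircle.haarAddCircle (T := 1)))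
    (𝓝[<] 1) (𝓝 0)

/-- LEAF ANA: the coefficients are bounded. -/
def S_ANA : Prop := ∀ g : Ci → ℂ, Integrable g (AddCircle.haarAddCircle (T := 1)) →
  AnalyticOnNhd ℂ (F g) (Metric.ball 0 1)

/-- LEAF JEN (Jensen): `AnalyticOnNhd.circleAverage_log_norm`, `MeromorphicOn.circleAverage_log_norm` in
`Mathlib/Analysis/Complex/JensenFormula.lean`: all terms but those of the centre are `≥ 0`. -/
def S_JEN : Prop := ∀ D : ℂ → ℂ, AnalyticOnNhd ℂ D (Metric.ball 0 1) → (∃ z ∈ Metric.ball (0 : ℂ) 1, D z ≠ 0) →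
  ∃ C : ℝ, ∀ ρ : ℝ, 1 / 2 ≤ ρ → ρ < 1 →
    Integrable (fun x : Ci => Real.log ‖D ((ρ : ℂ) * fourier 1 x)‖) (AddCircle.haarAddCircle (T := 1)) ∧
    -C ≤ ∫ x : Ci, Real.log ‖D ((ρ : ℂ) * fourier 1 x)‖ ∂(AddCircle.haarAddCircle (T := 1))

/-- LEAF POL -/
def S_POL : Prop := ∀ (s : ℕ) (Q : MvPolynomial (Fin s) ℂ), ∃ C : ℝ, 0 ≤ C ∧
  ∀ w : Fin s → ℂ, Real.log ‖MvPolynomial.eval w Q‖ ≤ C * (1 + ∑ i, ‖w i‖)

/-- LEAF ZO (from ABL, ANA, JEN, POL; zero-one law). `D(z) = Q(F g_i (z))` is analytic in the disc. If it is the zero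
function, then so is its boundary value: take `ρ_j → 1` with `F g_i (ρ_j e(x)) → g_i x` almost everywhere
(`TendstoInMeasure.exists_seq_tendsto_ae`, from ABL). Otherwise `∫ log |D(ρ e(x))| ≥ - C` by JEN, and
`∫ log⁺ |D(ρ e(x))| ≤ C'` by POL and ABL, so `∫ log⁻ |D(ρ_j e(x))| ≤ C''`; by Fatou's lemma `log⁻ |Q(g_i x)|` is finite
almost everywhere (where `Q(g_i x) = 0` the functions `log⁻ |D(ρ_j e(x))|` tend to infinity; careful where
`D(ρ_j e(x)) = 0` exactly, `Real.log 0 = 0` in Mathlib: for each `ρ` this is a null set, a finite set even). -/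
def S_ZO : Prop := ∀ (s : ℕ) (g : Fin s → Ci → ℂ), (∀ i, One (g i)) → ∀ Q : MvPolynomial (Fin s) ℂ,
  (AddCircle.haarAddCircle (T := 1)) {x : Ci | MvPolynomial.eval (fun i => g i x) Q = 0} ≠ 0 →
  ∀ᵐ x : Ci ∂(AddCircle.haarAddCircle (T := 1)), MvPolynomial.eval (fun i => g i x) Q = 0

/-- LEAF HAN (Hankel determinants, pure algebra): the matrix is `Vᵀ diag(c z) V` with the Vandermonde matrix `V`. -/
def S_HAN : Prop := ∀ (K : Finset ℤ) (c z : ℤ → ℂ), (∀ k ∈ K, c k ≠ 0) → (∀ k ∈ K, z k ≠ 0) → Set.InjOn z K →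
  ∀ r : ℕ, (K.card < r → (Matrix.of fun i j : Fin r => ∑ k ∈ K, c k * z k ^ ((i : ℕ) + j + 1)).det = 0) ∧
    (K.card = r → (Matrix.of fun i j : Fin r => ∑ k ∈ K, c k * z k ^ ((i : ℕ) + j + 1)).det ≠ 0)

/-- the periodisation of `f(x) e(-s x)`, on the circle -/
noncomputable def per (f : ℝ → ℂ) (s : ℝ) : Ci → ℂ :=
  AddCircle.liftIoc 1 0 (fun x : ℝ => ∑' k : ℤ, f (x + k) * ex s (x + k))

/-- LEAF CIR: the periodisation is integrable, with Fourier coefficients `ft f (s + m)`. (Over the reals this is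
`FMT.PT.unfold_int` and `FMT.PT.integrable_tsum'` in `Pool/Agent/W418/FMK/P2a.lean` with `τ = 1`; you may import it.
`fourierCoeff_liftIoc_eq`, `fourierCoeffOn` for the circle.) -/
def S_CIR : Prop := ∀ f : ℝ → ℂ, Integrable f → ∀ s : ℝ,
  Integrable (per f s) (AddCircle.haarAddCircle (T := 1)) ∧ ∀ m : ℤ, fourierCoeff (per f s) m = ft f (s + m)

/-- LEAF REF: reflection and shift of the spectrum. -/
def S_REF : Prop := ∀ (P : Ci → ℂ) (M : ℤ), Integrable P (AddCircle.haarAddCircle (T := 1)) →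
  (∀ m : ℤ, M < m → fourierCoeff P m = 0) → One (fun x => fourier M x * P (-x))

/-- LEAF DIR (from ZO, HAN, CIR, REF). `N(x) = #{k : f(x + k) ≠ 0}` is finite for almost all `x` in `(0, 1]`, as
`∫ N(x) dx` is the measure of the support. Let `r₀` be the least `r` with `{x : N x = r}` not null (outer measure is
enough). For `r > r₀` the determinant `D_r(x) = det (P_(i+j+1)(x))`, `P_n = per f (n β)`, is zero on this set by HAN (with
`c k = f(x + k)`, `z k = ex β (x + k)`), so almost everywhere by ZO and REF (one `M` for the `2 r - 1` functions; the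
factors `fourier M x` give `D_r` the factor `fourier (M r) x ≠ 0`); by HAN `N(x) ≤ r₀` almost everywhere. -/
def S_DIR : Prop := S_ZO → S_HAN → S_CIR → S_REF → ∀ (f : ℝ → ℂ) (β : ℝ), Integrable f → volume {x | f x ≠ 0} < ⊤ →
  Irrational β → (∀ n : ℕ, 1 ≤ n → ∃ M : ℤ, ∀ m : ℤ, M < m → ft f (n * β + m) = 0) →
  ∃ N : ℕ, volume {x | f x ≠ 0} = N

/-- the conclusion of DIR -/
def S_DIRC : Prop := ∀ (f : ℝ → ℂ) (β : ℝ), Integrable f → volume {x | f x ≠ 0} < ⊤ →
  Irrational β → (∀ n : ℕ, 1 ≤ n → ∃ M : ℤ, ∀ m : ℤ, M < m → ft f (n * β + m) = 0) →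
  ∃ N : ℕ, volume {x | f x ≠ 0} = N

/-- LEAF UNI (from DIRC): apply it to `x ↦ f (x / a)`, `β = b / a`, and to `x ↦ f (x / b)`, `β = a / b`: the measure of
the support times `a` and times `b` is an integer, so it is zero. -/
def S_UNI : Prop := S_DIRC → ∀ (f : ℝ → ℂ) (a b : ℝ), 0 < a → 0 < b → Irrational (a / b) → Integrable f →
  volume {x | f x ≠ 0} < ⊤ →
  (∀ m : ℕ, 1 ≤ m → {n : ℕ | ft f (a * m + b * n) ≠ 0}.Finite) →
  (∀ n : ℕ, 1 ≤ n → {m : ℕ | ft f (a * m + b * n) ≠ 0}.Finite) → f =ᵐ[volume] 0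

/-- the coefficients of the powers of a Blaschke factor -/
noncomputable def bc (r : ℝ) (m k : ℕ) : ℂ :=
  ∫ x in (0 : ℝ)..1, Complex.exp (-(2 * Real.pi * k * x : ℝ) * Complex.I) *
    ((Complex.exp ((2 * Real.pi * x : ℝ) * Complex.I) - r) / (1 - r * Complex.exp ((2 * Real.pi * x : ℝ) * Complex.I))) ^ m

/-- LEAF ROW. `bc r m k` is the coefficient of `z ^ k` in `((z - r) / (1 - r z)) ^ m`. For fixed `m ≥ 1` and `k ≥ m` it is
`r ^ (k - m)` times a polynomial in `k` of degree `m - 1` (leading coefficient `(1 - r ^ 2) ^ m / (m - 1)!`), from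
`∑_l C(m, l) (-r) ^ (m - l) C(k - l + m - 1, m - 1) r ^ (k - l)`. You may use `Pool/Agent/W418/FMK/P3b.lean`
(`cf_int_term`, `cfP`). -/
def S_ROW : Prop := ∀ r : ℝ, |r| < 1 → r ≠ 0 → ∀ m : ℕ, 1 ≤ m → {k : ℕ | bc r m k = 0}.Finite

/-- LEAF COL. For fixed `k` it is `(-r) ^ m` times a polynomial in `m` of degree `k` with the leading coefficient
`(r - 1 / r) ^ k / k!` (from `((1 - z / r) / (1 - r z)) ^ m`). Same file P3b as for ROW. -/
def S_COL : Prop := ∀ r : ℝ, |r| < 1 → r ≠ 0 → ∀ k : ℕ, {m : ℕ | bc r m k = 0}.Finite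

end Pool.Agent.K9h46.TL
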