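import Mathlib
import Pool.Agent.K9h46.TL.Stm

/-!
# The measure of the support is an integer (leaf DIR)
-/

set_option autoImplicit false
set_option linter.all false

open MeasureTheory Filter Topology

namespace Pool.Agent.K9h46.TL

theorem dir_unfold (g : ℝ → ENNReal) (hg : AEMeasurable g volume) :
    ∫⁻ y in Set.Ioc (0 : ℝ) 1, ∑' k : ℤ, g (y + k) = ∫⁻ x, g x := by
  have h1 : ∀ k : ℤ, ∫⁻ y in Set.Ioc (0 : ℝ) 1, g (y + k) =
      ∫⁻ x in Set.Ioc (k : ℝ) (k + 1), g x := by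
    intro k
    rw [← lintegral_indicator measurableSet_Ioc, ← lintegral_indicator measurableSet_Ioc,
      ← lintegral_add_right_eq_self (fun x => (Set.Ioc (k : ℝ) (k + 1)).indicator g x) (k : ℝ)]
    congr 1
    funext x
    by_cases hx : x ∈ Set.Ioc (0 : ℝ) 1
    · rw [Set.indicator_of_mem hx, Set.indicator_of_mem]
      exact ⟨by linarith [hx.1], by linarith [hx.2]⟩
    · rw [Set.indicator_of_notMem hx, Set.indicator_of_notMem]
      intro h
      exact hx ⟨by linarith [h.1], by linarith [h.2]⟩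
  rw [lintegral_tsum]
  · simp_rw [h1]
    rw [← lintegral_iUnion (fun k => measurableSet_Ioc) (Set.pairwise_disjoint_Ioc_intCast ℝ) g,
      iUnion_Ioc_intCast, Measure.restrict_univ]
  · intro k
    exact (hg.comp_quasiMeasurePreserving
      (measurePreserving_add_right volume (k : ℝ)).quasiMeasurePreserving).restrict

/-- the indices -/
def dirK (f : ℝ → ℂ) (y : ℝ) : Set ℤ := {k : ℤ | f (y + k) ≠ 0}

noncomputable def dirCnt (f : ℝ → ℂ) (y : ℝ) : ENNReal :=
  ∑' k : ℤ, ({x | f x ≠ 0} : Set ℝ).indicator (fun _ => (1 : ENNReal)) (y + k)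

theorem dirCnt_of_finite (f : ℝ → ℂ) (y : ℝ) (h : (dirK f y).Finite) :
    dirCnt f y = ((dirK f y).ncard : ENNReal) := by
  unfold dirCnt
  rw [tsum_eq_sum (s := h.toFinset)]
  · rw [Set.ncard_eq_toFinset_card _ h, Finset.card_eq_sum_ones, Nat.cast_sum]
    refine Finset.sum_congr rfl fun k hk => ?_
    have hk' : f (y + k) ≠ 0 := h.mem_toFinset.1 hk
    rw [Set.indicator_of_mem (show y + (k : ℝ) ∈ {x | f x ≠ 0} from hk'), Nat.cast_one]
  · intro k hk
    apply Set.indicator_of_notMem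
    intro h2
    exact hk (h.mem_toFinset.2 h2)

theorem dirK_finite (f : ℝ → ℂ) (y : ℝ) (h : dirCnt f y < ⊤) : (dirK f y).Finite := by
  have h1 := ENNReal.finite_const_le_of_tsum_ne_top (ne_of_lt h) (one_ne_zero)
  refine h1.subset fun k hk => ?_
  show (1 : ENNReal) ≤ _
  rw [Set.indicator_of_mem (show y + (k : ℝ) ∈ {x | f x ≠ 0} from hk)]

theorem dir_meas (f : ℝ → ℂ) (hf : AEStronglyMeasurable f volume) :
    AEMeasurable (({x | f x ≠ 0} : Set ℝ).indicator (fun _ => (1 : ENNReal))) volume := by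
  have h1 : NullMeasurableSet {x | f x ≠ 0} volume := by
    have h2 : NullMeasurableSet (f ⁻¹' {0}ᶜ) volume :=
      hf.aemeasurable.nullMeasurableSet_preimage (measurableSet_singleton 0).compl
    exact h2
  exact aemeasurable_const.indicator₀ h1

theorem dirCnt_int (f : ℝ → ℂ) (hf : AEStronglyMeasurable f volume) :
    ∫⁻ y in Set.Ioc (0 : ℝ) 1, dirCnt f y = volume {x | f x ≠ 0} := by
  unfold dirCnt
  rw [dir_unfold _ (dir_meas f hf)]
  have h1 : NullMeasurableSet {x | f x ≠ 0} volume := by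
    have h2 : NullMeasurableSet (f ⁻¹' {0}ᶜ) volume :=
      hf.aemeasurable.nullMeasurableSet_preimage (measurableSet_singleton 0).compl
    exact h2
  exact lintegral_indicator_one₀ h1

theorem dir_fin (f : ℝ → ℂ) (hf : AEStronglyMeasurable f volume) (hv : volume {x | f x ≠ 0} < ⊤) :
    ∀ᵐ y ∂(volume.restrict (Set.Ioc (0 : ℝ) 1)), (dirK f y).Finite := by
  have hm : AEMeasurable (dirCnt f) (volume.restrict (Set.Ioc (0 : ℝ) 1)) := by
    unfold dirCnt
    refine AEMeasurable.ennreal_tsum fun k => ?_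
    exact ((dir_meas f hf).comp_quasiMeasurePreserving
      (measurePreserving_add_right volume (k : ℝ)).quasiMeasurePreserving).restrict
  have h1 := ae_lt_top' hm (by rw [dirCnt_int f hf]; exact hv.ne)
  filter_upwards [h1] with y hy
  exact dirK_finite f y hy

/-! ### the circle -/

theorem dir_haar : (volume : Measure Ci) = AddCircle.haarAddCircle (T := 1) := by
  rw [AddCircle.volume_eq_smul_haarAddCircle, ENNReal.ofReal_one, one_smul]

theorem dir_ae {p : Ci → Prop} (h : ∀ᵐ x : Ci ∂(AddCircle.haarAddCircle (T := 1)), p x) :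
    ∀ᵐ y : ℝ ∂(volume.restrict (Set.Ioc (0 : ℝ) 1)), p (y : Ci) := by
  rw [← dir_haar] at h
  have h1 := (UnitAddCircle.measurePreserving_mk 0).quasiMeasurePreserving.ae h
  rw [zero_add] at h1
  exact h1

theorem dir_neg {p : Ci → Prop} (h : ∀ᵐ x : Ci ∂(AddCircle.haarAddCircle (T := 1)), p (-x)) :
    ∀ᵐ x : Ci ∂(AddCircle.haarAddCircle (T := 1)), p x := by
  have h1 := (Measure.measurePreserving_neg
    (AddCircle.haarAddCircle (T := 1))).quasiMeasurePreserving.ae h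
  filter_upwards [h1] with x hx
  rwa [neg_neg] at hx

/-- the determinant -/
noncomputable def dirD (f : ℝ → ℂ) (β : ℝ) (r : ℕ) (x : Ci) : ℂ :=
  (Matrix.of fun i j : Fin r => per f (((((i : ℕ) + j + 1 : ℕ)) : ℝ) * β) x).det

theorem dir_per (f : ℝ → ℂ) (β : ℝ) (n : ℕ) (y : ℝ) (hy : y ∈ Set.Ioc (0 : ℝ) 1)
    (h : (dirK f y).Finite) :
    per f ((n : ℝ) * β) (y : Ci) = ∑ k ∈ h.toFinset, f (y + k) * ex β (y + k) ^ n := by
  unfold per
  rw [AddCircle.liftIoc_coe_apply (by rw [zero_add]; exact hy)]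
  rw [tsum_eq_sum (s := h.toFinset)]
  · refine Finset.sum_congr rfl fun k _ => ?_
    congr 1
    unfold ex
    rw [← Complex.exp_nat_mul]
    congr 1
    push_cast
    ring
  · intro k hk
    have h1 : f (y + k) = 0 := by
      by_contra h2
      exact hk (h.mem_toFinset.2 h2)
    rw [h1, zero_mul]

theorem dir_inj (β : ℝ) (hβ : Irrational β) (y : ℝ) (K : Set ℤ) :
    Set.InjOn (fun k : ℤ => ex β (y + k)) K := by
  intro k _ l _ h
  simp only [ex] at h
  rw [Complex.exp_eq_exp_iff_exists_int] at h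
  obtain ⟨n, hn⟩ := h
  by_contra hkl
  have h1 : (β * ((l : ℝ) - k) : ℝ) = n := by
    have h2 : ((-(2 * Real.pi * β * (y + k) : ℝ) : ℂ) * Complex.I).im =
        ((-(2 * Real.pi * β * (y + l) : ℝ) : ℂ) * Complex.I + n * (2 * Real.pi * Complex.I)).im := by
      exact congrArg Complex.im hn
    simp at h2
    have h3 : (2 * Real.pi) * (β * ((l : ℝ) - k)) = (2 * Real.pi) * n := by linarith
    exact mul_left_cancel₀ (by positivity) h3
  have h2 : ((l : ℝ) - k) ≠ 0 := by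
    intro h0
    apply hkl
    have : (l : ℝ) = k := by linarith
    exact_mod_cast this.symm
  apply hβ
  refine ⟨(n : ℚ) / ((l : ℚ) - k), ?_⟩
  push_cast
  rw [← h1]
  field_simp

theorem dir_han (hH : S_HAN) (f : ℝ → ℂ) (β : ℝ) (hβ : Irrational β) (y : ℝ)
    (hy : y ∈ Set.Ioc (0 : ℝ) 1) (h : (dirK f y).Finite) (r : ℕ) :
    ((dirK f y).ncard < r → dirD f β r (y : Ci) = 0) ∧
      ((dirK f y).ncard = r → dirD f β r (y : Ci) ≠ 0) := by
  have e : dirD f β r (y : Ci) = (Matrix.of fun i j : Fin r =>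
      ∑ k ∈ h.toFinset, f (y + k) * ex β (y + k) ^ ((i : ℕ) + j + 1)).det := by
    unfold dirD
    congr 1
    ext i j
    simp only [Matrix.of_apply]
    exact dir_per f β _ y hy h
  rw [e, Set.ncard_eq_toFinset_card _ h]
  refine hH h.toFinset (fun k => f (y + k)) (fun k => ex β (y + k)) (fun k hk => ?_)
    (fun k _ => Complex.exp_ne_zero _) (dir_inj β hβ y _) r
  exact h.mem_toFinset.1 hk

theorem dir_one (hC : S_CIR) (hR : S_REF) (f : ℝ → ℂ) (β : ℝ) (hf : Integrable f)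
    (h : ∀ n : ℕ, 1 ≤ n → ∃ M : ℤ, ∀ m : ℤ, M < m → ft f (n * β + m) = 0) (r : ℕ) :
    ∃ M : ℤ, ∀ n : ℕ, 1 ≤ n → n ≤ 2 * r →
      One (fun x => fourier M x * per f ((n : ℝ) * β) (-x)) := by
  choose! Mf hMf using h
  refine ⟨∑ n ∈ Finset.range (2 * r + 1), |Mf n|, fun n hn hnr => ?_⟩
  refine hR _ _ (hC f hf _).1 fun m hm => ?_
  rw [(hC f hf _).2 m]
  apply hMf n hn
  have h1 : |Mf n| ≤ ∑ n ∈ Finset.range (2 * r + 1), |Mf n| :=
    Finset.single_le_sum (f := fun n => |Mf n|) (fun i _ => abs_nonneg _)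
      (Finset.mem_range.2 (by omega))
  have h2 := le_abs_self (Mf n)
  omega

/-- the Hankel determinant as a polynomial -/
noncomputable def dirQ (r : ℕ) : MvPolynomial (Fin (2 * r)) ℂ :=
  (Matrix.of fun i j : Fin r =>
    (MvPolynomial.X (⟨(i : ℕ) + j, by omega⟩ : Fin (2 * r)) : MvPolynomial (Fin (2 * r)) ℂ)).det

theorem dirQ_eval (f : ℝ → ℂ) (β : ℝ) (r : ℕ) (M : ℤ) (x : Ci) :
    MvPolynomial.eval (fun t : Fin (2 * r) =>
      (fourier M x : ℂ) * per f ((((t : ℕ) + 1 : ℕ) : ℝ) * β) (-x)) (dirQ r) =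
      (fourier M x : ℂ) ^ r * dirD f β r (-x) := by
  unfold dirQ dirD
  rw [RingHom.map_det]
  have e : (MvPolynomial.eval (fun t : Fin (2 * r) =>
      (fourier M x : ℂ) * per f ((((t : ℕ) + 1 : ℕ) : ℝ) * β) (-x))).mapMatrix
      (Matrix.of fun i j : Fin r =>
      (MvPolynomial.X (⟨(i : ℕ) + j, by omega⟩ : Fin (2 * r)) : MvPolynomial (Fin (2 * r)) ℂ)) =
      (fourier M x : ℂ) • (Matrix.of fun i j : Fin r =>
        per f (((((i : ℕ) + j + 1 : ℕ)) : ℝ) * β) (-x)) := by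
    ext i j
    simp only [RingHom.mapMatrix_apply, Matrix.map_apply, Matrix.of_apply, MvPolynomial.eval_X,
      Matrix.smul_apply, smul_eq_mul]
  rw [e, Matrix.det_smul, Fintype.card_fin]

theorem dir_zero (hZ : S_ZO) (hC : S_CIR) (hR : S_REF) (f : ℝ → ℂ) (β : ℝ) (hf : Integrable f)
    (h : ∀ n : ℕ, 1 ≤ n → ∃ M : ℤ, ∀ m : ℤ, M < m → ft f (n * β + m) = 0) (r : ℕ)
    (h0 : ¬ ∀ᵐ y : ℝ ∂(volume.restrict (Set.Ioc (0 : ℝ) 1)), dirD f β r (y : Ci) ≠ 0) :
    ∀ᵐ y : ℝ ∂(volume.restrict (Set.Ioc (0 : ℝ) 1)), dirD f β r (y : Ci) = 0 := by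
  obtain ⟨M, hM⟩ := dir_one hC hR f β hf h r
  have hF : ∀ x : Ci, (fourier M x : ℂ) ≠ 0 := by
    intro x
    rw [fourier_apply]
    exact Circle.coe_ne_zero _
  have h1 := hZ (2 * r) (fun t x => (fourier M x : ℂ) * per f ((((t : ℕ) + 1 : ℕ) : ℝ) * β) (-x))
    (fun t => hM _ (by omega) (by have := t.2; omega)) (dirQ r)
  simp only [dirQ_eval] at h1
  have h2 := h1 ?_
  · apply dir_ae (p := fun x => dirD f β r x = 0)
    apply dir_neg
    filter_upwards [h2] with x hx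
    exact (mul_eq_zero.1 hx).resolve_left (pow_ne_zero _ (hF x))
  · intro h3
    apply h0
    apply dir_ae (p := fun x => dirD f β r x ≠ 0)
    apply dir_neg
    have h4 : ∀ᵐ x : Ci ∂(AddCircle.haarAddCircle (T := 1)),
        ¬ ((fourier M x : ℂ) ^ r * dirD f β r (-x) = 0) := by
      rw [ae_iff]
      simpa only [not_not] using h3
    filter_upwards [h4] with x hx h5
    exact hx (by rw [h5, mul_zero])

/-- **The measure of the support is an integer.** -/
theorem dir : S_DIR := by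
  classical
  intro hZ hH hC hR f β hf hv hβ h
  have hfin := dir_fin f hf.1 hv
  -- the least value
  have hex : ∃ r : ℕ, ¬ ∀ᵐ y : ℝ ∂(volume.restrict (Set.Ioc (0 : ℝ) 1)), (dirK f y).ncard ≠ r := by
    by_contra hc
    push Not at hc
    have h1 : ∀ᵐ y : ℝ ∂(volume.restrict (Set.Ioc (0 : ℝ) 1)), ∀ r : ℕ, (dirK f y).ncard ≠ r :=
      ae_all_iff.2 hc
    have h2 : ∀ᵐ y : ℝ ∂(volume.restrict (Set.Ioc (0 : ℝ) 1)), False := by
      filter_upwards [h1] with y hy
      exact hy _ rfl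
    rw [ae_iff] at h2
    simp at h2
  obtain ⟨r₀, hr₀, hmin⟩ : ∃ r₀ : ℕ, (¬ ∀ᵐ y : ℝ ∂(volume.restrict (Set.Ioc (0 : ℝ) 1)),
      (dirK f y).ncard ≠ r₀) ∧ ∀ r < r₀, ∀ᵐ y : ℝ ∂(volume.restrict (Set.Ioc (0 : ℝ) 1)),
      (dirK f y).ncard ≠ r := by
    refine ⟨Nat.find hex, Nat.find_spec hex, fun r hr => ?_⟩
    have h1 := Nat.find_min hex hr
    exact not_not.1 h1
  have hIoc : ∀ᵐ y : ℝ ∂(volume.restrict (Set.Ioc (0 : ℝ) 1)), y ∈ Set.Ioc (0 : ℝ) 1 :=
    ae_restrict_mem measurableSet_Ioc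
  have hbig : ∀ r : ℕ, r₀ < r → ∀ᵐ y : ℝ ∂(volume.restrict (Set.Ioc (0 : ℝ) 1)),
      (dirK f y).ncard ≠ r := by
    intro r hr
    have h1 := dir_zero hZ hC hR f β hf h r ?_
    · filter_upwards [h1, hfin, hIoc] with y hy hyf hyI hn
      exact (dir_han hH f β hβ y hyI hyf r).2 hn hy
    · intro h2
      apply hr₀
      filter_upwards [h2, hfin, hIoc] with y hy hyf hyI hn
      exact hy ((dir_han hH f β hβ y hyI hyf r).1 (by omega))
  have hall : ∀ᵐ y : ℝ ∂(volume.restrict (Set.Ioc (0 : ℝ) 1)), (dirK f y).ncard = r₀ := by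
    have h1 : ∀ᵐ y : ℝ ∂(volume.restrict (Set.Ioc (0 : ℝ) 1)), ∀ r : ℕ, r ≠ r₀ →
        (dirK f y).ncard ≠ r := by
      rw [ae_all_iff]
      intro r
      by_cases hr : r = r₀
      · exact Filter.Eventually.of_forall fun y hne => absurd hr hne
      · rcases lt_or_gt_of_ne hr with h2 | h2
        · filter_upwards [hmin r h2] with y hy _
          exact hy
        · filter_upwards [hbig r h2] with y hy _
          exact hy
    filter_upwards [h1] with y hy
    by_contra hne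
    exact hy _ hne rfl
  refine ⟨r₀, ?_⟩
  rw [← dirCnt_int f hf.1]
  have h3 : ∫⁻ y in Set.Ioc (0 : ℝ) 1, dirCnt f y = ∫⁻ y in Set.Ioc (0 : ℝ) 1, (r₀ : ENNReal) := by
    apply lintegral_congr_ae
    filter_upwards [hall, hfin] with y hy hyf
    rw [dirCnt_of_finite f y hyf, hy]
  rw [h3]
  simp

end Pool.Agent.K9h46.TL
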