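import Pool.Agent.K9h46.TL.Uni
import Pool.Agent.W418.FMK.Final

/-!
# Tilings by functions with finite-measure support (helper46): uniqueness and criterion for shifted cones
-/

set_option autoImplicit false

open MeasureTheory Filter Topology

namespace Pool.Agent.K9h46.TL

/-- the conclusion of UNI, for shifted cones -/
def S_UNIG : Prop := ∀ (f : ℝ → ℂ) (s a b : ℝ), a ≠ 0 → b ≠ 0 → Irrational (a / b) → Integrable f →
  volume {x | f x ≠ 0} < ⊤ →
  (∀ m : ℕ, 1 ≤ m → {n : ℕ | ft f (s + a * m + b * n) ≠ 0}.Finite) →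
  (∀ n : ℕ, 1 ≤ n → {m : ℕ | ft f (s + a * m + b * n) ≠ 0}.Finite) → f =ᵐ[volume] 0

theorem ft_neg (f : ℝ → ℂ) (s : ℝ) : ft (fun x => f (-x)) s = ft f (-s) := by
  unfold ft
  rw [← integral_neg_eq_self (fun x : ℝ => f x * Complex.exp (-(2 * Real.pi * (-s) * x : ℝ) * Complex.I))]
  refine integral_congr_ae (Eventually.of_forall fun x => ?_)
  simp only
  congr 3
  push_cast
  ring

theorem vol_neg (f : ℝ → ℂ) : volume {x | f (-x) ≠ 0} = volume {x | f x ≠ 0} := by
  have h1 : {x : ℝ | f (-x) ≠ 0} = (fun x => -x) ⁻¹' {x | f x ≠ 0} := rfl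
  rw [h1, Measure.measure_preimage_neg]

theorem one_dir' (hd : S_DIRC) (f : ℝ → ℂ) {a b : ℝ} (ha : a ≠ 0) (hba : Irrational (b / a)) (hf : Integrable f)
    (hs : volume {x | f x ≠ 0} < ⊤) (h : ∀ n : ℕ, 1 ≤ n → {m : ℕ | ft f (a * m + b * n) ≠ 0}.Finite) :
    ∃ N : ℕ, ENNReal.ofReal |a| * volume {x | f x ≠ 0} = N := by
  rcases lt_or_gt_of_ne ha with h0 | h0
  · rw [abs_of_neg h0, ← vol_neg f]
    refine one_dir hd (fun x => f (-x)) (a := -a) (b := -b) (by linarith) ?_ hf.comp_neg ?_ fun n hn => ?_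
    · rwa [neg_div_neg_eq]
    · rwa [vol_neg]
    · refine (h n hn).subset fun m hm => ?_
      rw [Set.mem_ofPred_eq] at hm ⊢
      rw [ft_neg] at hm
      have h1 : -(-a * (m : ℝ) + -b * n) = a * m + b * n := by ring
      rwa [h1] at hm
  · rw [abs_of_pos h0]
    exact one_dir hd f h0 hba hf hs h

theorem ft_tw (f : ℝ → ℂ) (s t : ℝ) : ft (fun x => f x * ex s x) t = ft f (s + t) := by
  unfold ft ex
  refine integral_congr_ae (Eventually.of_forall fun x => ?_)
  simp only
  rw [mul_assoc, ← Complex.exp_add]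
  congr 2
  push_cast
  ring

theorem ex_ne (s x : ℝ) : ex s x ≠ 0 := Complex.exp_ne_zero _

theorem unig (hd : S_DIRC) : S_UNIG := by
  intro f s a b ha hb hab hf hs h1 h2
  have hba : Irrational (b / a) := by
    have := hab.inv
    rwa [inv_div] at this
  set g : ℝ → ℂ := fun x => f x * ex s x with hg
  have hgs : {x | g x ≠ 0} = {x | f x ≠ 0} := by
    ext x
    simp only [hg, Set.mem_ofPred_eq, ne_eq, mul_eq_zero, ex_ne, or_false]
  have hgi : Integrable g := by
    refine Integrable.mul_bdd (c := 1) hf ?_ ?_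
    · apply Continuous.aestronglyMeasurable
      unfold ex
      fun_prop
    · filter_upwards with x
      unfold ex
      rw [show (-(2 * Real.pi * s * x : ℝ) * Complex.I : ℂ) = ((-(2 * Real.pi * s * x) : ℝ) : ℂ) * Complex.I by push_cast; ring]
      rw [Complex.norm_exp_ofReal_mul_I]
  obtain ⟨N, hN⟩ := one_dir' hd g ha hba hgi (by rwa [hgs]) (fun n hn => by
    refine (h2 n hn).subset fun m hm => ?_
    rw [Set.mem_ofPred_eq] at hm ⊢
    rw [hg, ft_tw] at hm
    rwa [add_assoc])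
  obtain ⟨N', hN'⟩ := one_dir' hd g hb hab hgi (by rwa [hgs]) (fun m hm => by
    refine (h1 m hm).subset fun n hn => ?_
    rw [Set.mem_ofPred_eq] at hn ⊢
    rw [hg, ft_tw] at hn
    rwa [add_assoc, add_comm (a * (m : ℝ))])
  rw [hgs] at hN hN'
  set v : ℝ := (volume {x | f x ≠ 0}).toReal with hv
  have e1 : |a| * v = N := by
    have := congrArg ENNReal.toReal hN
    rwa [ENNReal.toReal_mul, ENNReal.toReal_ofReal (abs_nonneg a), ENNReal.toReal_natCast] at this
  have e2 : |b| * v = N' := by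
    have := congrArg ENNReal.toReal hN'
    rwa [ENNReal.toReal_mul, ENNReal.toReal_ofReal (abs_nonneg b), ENNReal.toReal_natCast] at this
  have hv0 : v = 0 := by
    by_contra hne
    have hb0 : |b| ≠ 0 := abs_ne_zero.2 hb
    have h3 : |a / b| = ((N : ℚ) / N' : ℚ) := by
      have hN'0 : (N' : ℝ) ≠ 0 := by
        rw [← e2]
        exact mul_ne_zero hb0 hne
      push_cast
      rw [← e1, ← e2, abs_div]
      field_simp
    rcases abs_choice (a / b) with h4 | h4
    · exact hab ⟨(N : ℚ) / N', by rw [← h3, h4]⟩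
    · exact hab ⟨-((N : ℚ) / N'), by push_cast; push_cast at h3; rw [← h3, h4, neg_neg]⟩
  have h0 : volume {x | f x ≠ 0} = 0 := by
    rcases (ENNReal.toReal_eq_zero_iff _).1 hv0 with h | h
    · exact h
    · exact absurd h hs.ne
  rw [Filter.EventuallyEq, ae_iff]
  exact h0

/-- tilings and the means, shifted cones -/
theorem critg (hu : S_UNIG) (L : Set ℝ) (hL : FMT.BD L) (s a b : ℝ) (ha : a ≠ 0) (hb : b ≠ 0) (hab : Irrational (a / b))
    (h1 : ∀ m : ℕ, 1 ≤ m → {n : ℕ | 1 ≤ n ∧ Tendsto (FMT.mean L (s + a * m + b * n)) atTop (𝓝 0)}.Finite)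
    (h2 : ∀ n : ℕ, 1 ≤ n → {m : ℕ | 1 ≤ m ∧ Tendsto (FMT.mean L (s + a * m + b * n)) atTop (𝓝 0)}.Finite)
    (f : ℝ → ℂ) (hf : Integrable f) (hs : volume {x | f x ≠ 0} < ⊤) (w : ℂ)
    (ht : ∀ᵐ x : ℝ, Summable (fun l : L => f (x - l)) ∧ ∑' l : L, f (x - l) = w) : f =ᵐ[volume] 0 := by
  have key : ∀ m n : ℕ, s + a * m + b * n ≠ 0 → ¬ Tendsto (FMT.mean L (s + a * m + b * n)) atTop (𝓝 0) →
      ft f (s + a * m + b * n) = 0 := fun m n h0 h => FMT.link L hL (s + a * m + b * n) h0 h f hf w ht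
  have z1 : ∀ m : ℕ, {n : ℕ | s + a * m + b * n = 0}.Finite := by
    intro m
    apply Set.Subsingleton.finite
    intro i hi j hj
    rw [Set.mem_ofPred_eq] at hi hj
    have : b * (i : ℝ) = b * j := by linarith
    exact_mod_cast mul_left_cancel₀ hb this
  have z2 : ∀ n : ℕ, {m : ℕ | s + a * m + b * n = 0}.Finite := by
    intro n
    apply Set.Subsingleton.finite
    intro i hi j hj
    rw [Set.mem_ofPred_eq] at hi hj
    have : a * (i : ℝ) = a * j := by linarith
    exact_mod_cast mul_left_cancel₀ ha this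
  refine hu f s a b ha hb hab hf hs (fun m hm => ?_) (fun n hn => ?_)
  · refine (((h1 m hm).union (Set.finite_singleton 0)).union (z1 m)).subset ?_
    intro n hn
    rw [Set.mem_union, Set.mem_union, Set.mem_singleton_iff]
    by_cases h0 : s + a * m + b * n = 0
    · exact Or.inr h0
    rcases Nat.eq_zero_or_pos n with h3 | h3
    · exact Or.inl (Or.inr h3)
    · refine Or.inl (Or.inl ⟨h3, ?_⟩)
      by_contra hcon
      exact hn (key m n h0 hcon)
  · refine (((h2 n hn).union (Set.finite_singleton 0)).union (z2 n)).subset ?_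
    intro m hm
    rw [Set.mem_union, Set.mem_union, Set.mem_singleton_iff]
    by_cases h0 : s + a * m + b * n = 0
    · exact Or.inr h0
    rcases Nat.eq_zero_or_pos m with h3 | h3
    · exact Or.inl (Or.inr h3)
    · refine Or.inl (Or.inl ⟨h3, ?_⟩)
      by_contra hcon
      exact hm (key m n h0 hcon)

end Pool.Agent.K9h46.TL
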