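import Pool.Agent.K9h46.TL.Stm

set_option autoImplicit false

namespace Pool.Agent.K9h46.TL

theorem han : S_HAN := by
  intro K c z hc hz hinj r
  constructor
  · intro hr
    by_contra hdet
    have hM : (Matrix.of fun i j : Fin r => ∑ k ∈ K, c k * z k ^ ((i : ℕ) + j + 1)) =
        (Matrix.of fun (i : Fin r) (k : K) => z k ^ (i : ℕ)) *
        (Matrix.of fun (k : K) (j : Fin r) => c k * z k ^ ((j : ℕ) + 1)) := by
      ext i j
      rw [Matrix.mul_apply, Matrix.of_apply, ← Finset.sum_coe_sort K]
      refine Finset.sum_congr rfl fun k _ => ?_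
      simp only [Matrix.of_apply]
      ring
    have hu : IsUnit (Matrix.of fun i j : Fin r => ∑ k ∈ K, c k * z k ^ ((i : ℕ) + j + 1)) := by
      rw [Matrix.isUnit_iff_isUnit_det]
      exact isUnit_iff_ne_zero.2 hdet
    have h1 := Matrix.rank_of_isUnit _ hu
    rw [Fintype.card_fin, hM] at h1
    have h2 := (Matrix.rank_mul_le_left (Matrix.of fun (i : Fin r) (k : K) => z k ^ (i : ℕ))
      (Matrix.of fun (k : K) (j : Fin r) => c k * z k ^ ((j : ℕ) + 1))).trans
      (Matrix.rank_le_card_width _)
    rw [h1, Fintype.card_coe] at h2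
    omega
  · intro hr
    let e : Fin r ≃ K := (Finset.equivFinOfCardEq hr).symm
    have hM : (Matrix.of fun i j : Fin r => ∑ k ∈ K, c k * z k ^ ((i : ℕ) + j + 1)) =
        (Matrix.vandermonde fun a : Fin r => z (e a)).transpose *
          Matrix.diagonal (fun a : Fin r => c (e a) * z (e a)) *
          (Matrix.vandermonde fun a : Fin r => z (e a)) := by
      ext i j
      rw [Matrix.mul_apply, Matrix.of_apply, ← Finset.sum_coe_sort K,
        ← Equiv.sum_comp e]
      refine Finset.sum_congr rfl fun k _ => ?_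
      rw [Matrix.mul_diagonal, Matrix.transpose_apply, Matrix.vandermonde_apply,
        Matrix.vandermonde_apply]
      ring
    rw [hM, Matrix.det_mul, Matrix.det_mul, Matrix.det_transpose, Matrix.det_diagonal]
    have hV : (Matrix.vandermonde fun a : Fin r => z (e a)).det ≠ 0 := by
      rw [Matrix.det_vandermonde_ne_zero_iff]
      intro a b hab
      exact e.injective (Subtype.ext (hinj (e a).2 (e b).2 hab))
    refine mul_ne_zero (mul_ne_zero hV ?_) hV
    exact Finset.prod_ne_zero_iff.2 fun a _ => mul_ne_zero (hc _ (e a).2) (hz _ (e a).2)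

end Pool.Agent.K9h46.TL
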