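import Pool.Agent.K9h46.TL.Stm

set_option autoImplicit false

open MeasureTheory Filter Topology

namespace Pool.Agent.K9h46.TL

namespace JEN_

lemma circ (ρ x : ℝ) : (ρ : ℂ) * fourier 1 ((x : ℝ) : Ci) = circleMap 0 ρ (2 * Real.pi * x) := by
  rw [fourier_coe_apply, circleMap, zero_add]
  congr 2
  push_cast
  ring

lemma haar_eq : (AddCircle.haarAddCircle (T := 1)) = (volume : Measure Ci) := by
  rw [AddCircle.volume_eq_smul_haarAddCircle]; simp

lemma sphere_sub {ρ : ℝ} (h0 : 1 / 2 ≤ ρ) (h1 : ρ < 1) :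
    Metric.closedBall (0 : ℂ) |ρ| ⊆ Metric.ball 0 1 := by
  rw [abs_of_nonneg (by linarith)]
  exact Metric.closedBall_subset_ball h1

lemma key (D : ℂ → ℂ) (hD : AnalyticOnNhd ℂ D (Metric.ball 0 1)) (ρ : ℝ) (h0 : 1 / 2 ≤ ρ)
    (h1 : ρ < 1) :
    Integrable (fun x : Ci => Real.log ‖D ((ρ : ℂ) * fourier 1 x)‖)
      (AddCircle.haarAddCircle (T := 1)) ∧
    ∫ x : Ci, Real.log ‖D ((ρ : ℂ) * fourier 1 x)‖ ∂(AddCircle.haarAddCircle (T := 1)) =
      Real.circleAverage (fun z => Real.log ‖D z‖) 0 ρ := by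
  have hpi := Real.pi_pos
  have hci : CircleIntegrable (fun z => Real.log ‖D z‖) 0 ρ :=
    MeromorphicOn.circleIntegrable_log_norm
      (hD.mono (Metric.sphere_subset_closedBall.trans (sphere_sub h0 h1))).meromorphicOn
  have h2 : IntervalIntegrable
      (fun x : ℝ => Real.log ‖D (circleMap 0 ρ (2 * Real.pi * x))‖) volume 0 1 := by
    have := ((circleIntegrable_def _ _ _).1 hci).comp_mul_left (c := 2 * Real.pi)
    rw [zero_div, div_self (by positivity)] at this
    exact this
  have hcont : Continuous (fun x : Ci => D ((ρ : ℂ) * fourier 1 x)) := by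
    rw [continuous_iff_continuousAt]
    intro x
    have hx : (ρ : ℂ) * fourier 1 x ∈ Metric.ball (0 : ℂ) 1 := by
      rw [mem_ball_zero_iff, norm_mul, Complex.norm_real, fourier_apply, Circle.norm_coe, mul_one,
        Real.norm_eq_abs, abs_of_nonneg (by linarith)]
      exact h1
    exact ContinuousAt.comp (f := fun x : Ci => (ρ : ℂ) * fourier 1 x) (hD _ hx).continuousAt
      (by fun_prop)
  have hmeas : AEStronglyMeasurable (fun x : Ci => Real.log ‖D ((ρ : ℂ) * fourier 1 x)‖)
      (volume : Measure Ci) :=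
    (Real.measurable_log.comp hcont.norm.measurable).aestronglyMeasurable
  have e : ∀ x : ℝ, Real.log ‖D ((ρ : ℂ) * fourier 1 ((x : ℝ) : Ci))‖ =
      Real.log ‖D (circleMap 0 ρ (2 * Real.pi * x))‖ := fun x => by rw [circ]
  rw [haar_eq]
  constructor
  · have h3 := (UnitAddCircle.measurePreserving_mk 0).integrable_comp hmeas
    refine h3.1 ?_
    have h4 : IntegrableOn (fun x : ℝ => Real.log ‖D (circleMap 0 ρ (2 * Real.pi * x))‖)
        (Set.Ioc 0 (0 + 1)) volume := by
      rw [zero_add]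
      exact (intervalIntegrable_iff_integrableOn_Ioc_of_le zero_le_one).1 h2
    exact h4.congr (ae_of_all _ fun x => (e x).symm)
  · rw [← UnitAddCircle.intervalIntegral_preimage 0, zero_add]
    simp only [e]
    rw [Real.circleAverage_def, intervalIntegral.integral_comp_mul_left
      (fun θ => Real.log ‖D (circleMap 0 ρ θ)‖) (by positivity : (2 * Real.pi) ≠ 0), mul_zero, mul_one]

end JEN_

open JEN_

theorem jen : S_JEN := by
  intro D hD _
  refine ⟨(meromorphicOrderAt D 0).untop₀ * Real.log 2 - Real.log ‖meromorphicTrailingCoeffAt D 0‖,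
    fun ρ h0 h1 => ?_⟩
  obtain ⟨k1, k2⟩ := key D hD ρ h0 h1
  refine ⟨k1, ?_⟩
  rw [k2]
  have hρ : ρ ≠ 0 := by intro h; rw [h] at h0; norm_num at h0
  have hρ0 : 0 < ρ := by linarith
  have hA : AnalyticOnNhd ℂ D (Metric.closedBall 0 |ρ|) := hD.mono (sphere_sub h0 h1)
  rw [MeromorphicOn.circleAverage_log_norm hρ hA.meromorphicOn]
  have h0m : (0 : ℂ) ∈ Metric.closedBall (0 : ℂ) |ρ| := by simp
  have hnn := MeromorphicOn.AnalyticOnNhd.divisor_nonneg hA
  rw [MeromorphicOn.divisor_apply hA.meromorphicOn h0m]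
  have hk : 0 ≤ (meromorphicOrderAt D 0).untop₀ := by
    have := hnn 0
    rw [MeromorphicOn.divisor_apply hA.meromorphicOn h0m] at this
    exact this
  have h3 : 0 ≤ ∑ᶠ u, (MeromorphicOn.divisor D (Metric.closedBall 0 |ρ|) u : ℝ) *
      Real.log (ρ * ‖0 - u‖⁻¹) := by
    apply finsum_nonneg
    intro u
    by_cases hu : u ∈ Metric.closedBall (0 : ℂ) |ρ|
    · refine mul_nonneg (by exact_mod_cast hnn u) ?_
      by_cases hu0 : u = 0
      · simp [hu0]
      · apply Real.log_nonneg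
        have hu1 : 0 < ‖u‖ := norm_pos_iff.2 hu0
        rw [zero_sub, norm_neg, ← div_eq_mul_inv, one_le_div hu1]
        rw [mem_closedBall_zero_iff, abs_of_pos hρ0] at hu
        exact hu
    · rw [Function.locallyFinsuppWithin.apply_eq_zero_of_notMem _ hu]
      simp
  have h4 : -Real.log 2 ≤ Real.log ρ := by
    rw [← Real.log_inv]
    exact Real.log_le_log (by norm_num) (by linarith)
  have h5 : (0 : ℝ) ≤ ((meromorphicOrderAt D 0).untop₀ : ℝ) := by exact_mod_cast hk
  nlinarith [mul_le_mul_of_nonneg_left h4 h5]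

end Pool.Agent.K9h46.TL
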