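import Mathlib
import Pool.Agent.W418.FMK.Final

/-!
# Tilings by functions with finite-measure support (helper46): periodic Kurasov-Sarnak sets
-/

set_option autoImplicit false

open MeasureTheory Filter Topology

namespace Pool.Agent.K9h46.TL

/-- a set of bounded density with a period has a periodic structure -/
theorem per_struct {L : Set ℝ} {q : ℝ} (hq : 0 < q) (hfin : (L ∩ Set.Ico 0 q).Finite) (hper : ∀ x, x ∈ L ↔ x + q ∈ L) :
    ∃ (n : ℕ) (a b : Fin n → ℝ), (∀ i, 0 < a i) ∧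
      (Pairwise fun i j => Disjoint {x : ℝ | ∃ k : ℤ, x = a i * k + b i} {x : ℝ | ∃ k : ℤ, x = a j * k + b j}) ∧
      L = ⋃ i, {x : ℝ | ∃ k : ℤ, x = a i * k + b i} := by
  have hk : ∀ (k : ℤ) (x : ℝ), x ∈ L ↔ x + q * k ∈ L := by
    intro k
    induction k using Int.induction_on with
    | zero => intro x; simp
    | succ k ih =>
      intro x
      rw [ih x, hper]
      have : x + q * (k : ℤ) + q = x + q * (((k : ℤ) + 1 : ℤ) : ℝ) := by push_cast; ring
      rw [this]
    | pred k ih =>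
      intro x
      rw [ih x, hper (x + q * ((-(k : ℤ) - 1 : ℤ) : ℝ))]
      have : x + q * ((-(k : ℤ) - 1 : ℤ) : ℝ) + q = x + q * ((-(k : ℤ) : ℤ) : ℝ) := by push_cast; ring
      rw [this]
  obtain ⟨S, hS⟩ : ∃ S : Finset ℝ, S = hfin.toFinset := ⟨_, rfl⟩
  have hSm : ∀ x, x ∈ S ↔ x ∈ L ∧ 0 ≤ x ∧ x < q := by
    intro x
    rw [hS, Set.Finite.mem_toFinset]
    rfl
  let e : Fin S.card ≃ S := S.equivFin.symm
  refine ⟨S.card, fun _ => q, fun i => (e i : ℝ), fun _ => hq, ?_, ?_⟩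
  · intro i j hij
    rw [Set.disjoint_left]
    rintro x ⟨k, hk1⟩ ⟨l, hl1⟩
    apply hij
    have hi := (hSm _).1 (e i).2
    have hj := (hSm _).1 (e j).2
    have h1 : q * k + (e i : ℝ) = q * l + (e j : ℝ) := by rw [← hk1, ← hl1]
    have h2 : k = l := by
      have h3 : q * ((k : ℝ) - l) < q * 1 := by linarith [hi.2.1, hj.2.2]
      have h4 : q * ((l : ℝ) - k) < q * 1 := by linarith [hj.2.1, hi.2.2]
      have h5 := lt_of_mul_lt_mul_left h3 hq.le
      have h6 := lt_of_mul_lt_mul_left h4 hq.le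
      have h7 : k < l + 1 := by
        have : (k : ℝ) < l + 1 := by linarith
        exact_mod_cast this
      have h8 : l < k + 1 := by
        have : (l : ℝ) < k + 1 := by linarith
        exact_mod_cast this
      omega
    subst h2
    have h3 : (e i : ℝ) = e j := by linarith
    exact e.injective (Subtype.ext h3)
  · ext x
    rw [Set.mem_iUnion]
    constructor
    · intro hx
      obtain ⟨y, hy⟩ : ∃ y : ℝ, y = x + q * ((-⌊x / q⌋ : ℤ) : ℝ) := ⟨_, rfl⟩
      have hyL : y ∈ L := by rw [hy]; exact (hk _ x).1 hx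
      have h1 := Int.floor_le (x / q)
      have h2 := Int.lt_floor_add_one (x / q)
      rw [le_div_iff₀ hq] at h1
      rw [div_lt_iff₀ hq] at h2
      have hyS : y ∈ S := by
        rw [hSm]
        refine ⟨hyL, ?_, ?_⟩
        · rw [hy]; push_cast; linarith
        · rw [hy]; push_cast; linarith
      refine ⟨e.symm ⟨y, hyS⟩, ⌊x / q⌋, ?_⟩
      show x = q * ((⌊x / q⌋ : ℤ) : ℝ) + ((e (e.symm ⟨y, hyS⟩) : S) : ℝ)
      rw [Equiv.apply_symm_apply]
      show x = q * ((⌊x / q⌋ : ℤ) : ℝ) + y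
      rw [hy]
      push_cast
      ring
    · rintro ⟨i, k, rfl⟩
      have hi := (hSm _).1 (e i).2
      rw [add_comm]
      exact (hk k _).1 hi.1

theorem bd_fin {L : Set ℝ} (hL : FMT.BD L) {q : ℝ} : (L ∩ Set.Ico 0 q).Finite := by
  have h := hL.fin ⌈q⌉₊
  refine h.subset ?_
  rintro x ⟨h1, h2, h3⟩
  exact ⟨h1, h2, lt_of_lt_of_le h3 (Nat.le_ceil q)⟩

theorem ks_bd (α r : ℝ) (hα : 0 < α) (hr : |r| < 1) : FMT.BD (FMT.ks α r) := by
  obtain ⟨Φ, h0, hmono, hsurj, hder, hper, hexp, hmem⟩ := FMT.phase α r hα hr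
  have hL : ∀ x, x ∈ FMT.ks α r ↔ ∃ n : ℤ, Φ x = n := by
    intro x
    rw [hmem x]
    rfl
  exact FMT.bd_of_phase α hα Φ hmono hper _ hL

/-- the periodic cases -/
theorem ks_per (α r : ℝ) (hα : 0 < α) (hr : |r| < 1) (h : ¬ Irrational α ∨ r = 0) :
    ∃ (n : ℕ) (a b : Fin n → ℝ), (∀ i, 0 < a i) ∧
      (Pairwise fun i j => Disjoint {x : ℝ | ∃ k : ℤ, x = a i * k + b i} {x : ℝ | ∃ k : ℤ, x = a j * k + b j}) ∧
      FMT.ks α r = ⋃ i, {x : ℝ | ∃ k : ℤ, x = a i * k + b i} := by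
  rcases h with h | h
  · rw [irrational_iff_ne_rational] at h
    push Not at h
    obtain ⟨p, q, hq0, hpq⟩ := h
    obtain ⟨Q, hQ⟩ : ∃ Q : ℕ, Q = q.natAbs := ⟨_, rfl⟩
    have hQ1 : 1 ≤ Q := by omega
    obtain ⟨P, hP⟩ : ∃ P : ℤ, α * Q = P := by
      rcases Int.natAbs_eq q with h1 | h1
      · refine ⟨p, ?_⟩
        have h2 : (q : ℝ) = Q := by
          rw [hQ]
          exact (congrArg (Int.cast : ℤ → ℝ) h1).trans (Int.cast_natCast _)
        have h3 : (q : ℝ) ≠ 0 := by exact_mod_cast hq0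
        rw [hpq, ← h2]
        field_simp
      · refine ⟨-p, ?_⟩
        have h2 : (q : ℝ) = -Q := by
          rw [hQ]
          refine (congrArg (Int.cast : ℤ → ℝ) h1).trans ?_
          rw [Int.cast_neg, Int.cast_natCast]
        have h3 : (q : ℝ) ≠ 0 := by exact_mod_cast hq0
        have h4 : (Q : ℝ) = -q := by rw [h2]; ring
        rw [hpq, h4]
        push_cast
        field_simp
    have hQ0 : (0 : ℝ) < Q := by exact_mod_cast hQ1
    refine per_struct (q := 2 * Q) (by positivity) (bd_fin (ks_bd α r hα hr)) fun x => ?_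
    unfold FMT.ks
    rw [Set.mem_ofPred_eq, Set.mem_ofPred_eq]
    have e1 : Real.pi * ((1 + α) * (x + 2 * Q)) = Real.pi * ((1 + α) * x) + ((Q + P : ℤ) : ℝ) * (2 * Real.pi) := by
      push_cast
      rw [← hP]
      ring
    have e2 : Real.pi * ((α - 1) * (x + 2 * Q)) = Real.pi * ((α - 1) * x) + ((P - Q : ℤ) : ℝ) * (2 * Real.pi) := by
      push_cast
      rw [← hP]
      ring
    rw [e1, e2, Real.sin_add_int_mul_two_pi, Real.sin_add_int_mul_two_pi]
  · subst h
    have h1 : 0 < 1 + α := by linarith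
    refine per_struct (q := 1 / (1 + α)) (by positivity) (bd_fin (ks_bd α 0 hα (by simp))) fun x => ?_
    unfold FMT.ks
    rw [Set.mem_ofPred_eq, Set.mem_ofPred_eq]
    have e1 : Real.pi * ((1 + α) * (x + 1 / (1 + α))) = Real.pi * ((1 + α) * x) + Real.pi := by
      field_simp
    rw [e1, Real.sin_add_pi]
    simp

end Pool.Agent.K9h46.TL
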