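import Pool.Agent.K9h46.TL.Stm

/-! leaf POL (helper46) -/

set_option autoImplicit false

open MeasureTheory Filter Topology

namespace Pool.Agent.K9h46.TL

theorem pol_aux (s : ℕ) (Q : MvPolynomial (Fin s) ℂ) : ∃ (A : ℝ) (d : ℕ), 1 ≤ A ∧
    ∀ w : Fin s → ℂ, ‖MvPolynomial.eval w Q‖ ≤ A * (1 + ∑ i, ‖w i‖) ^ d := by
  have hpos : ∀ w : Fin s → ℂ, 1 ≤ 1 + ∑ i, ‖w i‖ := fun w => by
    have : 0 ≤ ∑ i, ‖w i‖ := Finset.sum_nonneg fun i _ => norm_nonneg _
    linarith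
  induction Q using MvPolynomial.induction_on with
  | C a =>
    refine ⟨1 + ‖a‖, 0, by linarith [norm_nonneg a], fun w => ?_⟩
    rw [MvPolynomial.eval_C, pow_zero, mul_one]
    linarith
  | add p q hp hq =>
    obtain ⟨A, d, hA, h1⟩ := hp
    obtain ⟨B, e, hB, h2⟩ := hq
    refine ⟨A + B, d + e, by linarith, fun w => ?_⟩
    rw [map_add]
    have h3 : (1 + ∑ i, ‖w i‖) ^ d ≤ (1 + ∑ i, ‖w i‖) ^ (d + e) := pow_le_pow_right₀ (hpos w) (by omega)
    have h4 : (1 + ∑ i, ‖w i‖) ^ e ≤ (1 + ∑ i, ‖w i‖) ^ (d + e) := pow_le_pow_right₀ (hpos w) (by omega)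
    have h5 := mul_le_mul_of_nonneg_left h3 (by linarith : 0 ≤ A)
    have h6 := mul_le_mul_of_nonneg_left h4 (by linarith : 0 ≤ B)
    have := h1 w
    have := h2 w
    have := norm_add_le (MvPolynomial.eval w p) (MvPolynomial.eval w q)
    linarith
  | mul_X p i hp =>
    obtain ⟨A, d, hA, h1⟩ := hp
    refine ⟨A, d + 1, hA, fun w => ?_⟩
    rw [map_mul, MvPolynomial.eval_X, norm_mul, pow_succ, ← mul_assoc]
    refine mul_le_mul (h1 w) ?_ (norm_nonneg _) ?_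
    · have : ‖w i‖ ≤ ∑ i, ‖w i‖ := Finset.single_le_sum (f := fun i => ‖w i‖) (fun i _ => norm_nonneg _) (Finset.mem_univ i)
      linarith
    · have := hpos w
      positivity

theorem pol : S_POL := by
  intro s Q
  obtain ⟨A, d, hA, h⟩ := pol_aux s Q
  refine ⟨Real.log A + d, add_nonneg (Real.log_nonneg hA) (Nat.cast_nonneg d), fun w => ?_⟩
  have hpos : 1 ≤ 1 + ∑ i, ‖w i‖ := by
    have : 0 ≤ ∑ i, ‖w i‖ := Finset.sum_nonneg fun i _ => norm_nonneg _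
    linarith
  have h0 : 0 ≤ Real.log A := Real.log_nonneg hA
  rcases eq_or_ne (MvPolynomial.eval w Q) 0 with h1 | h1
  · rw [h1, norm_zero, Real.log_zero]
    exact mul_nonneg (add_nonneg h0 (Nat.cast_nonneg d)) (by linarith)
  · have h2 : 0 < ‖MvPolynomial.eval w Q‖ := norm_pos_iff.2 h1
    have h3 := Real.log_le_log h2 (h w)
    rw [Real.log_mul (by linarith) (by positivity), Real.log_pow] at h3
    have h4 : Real.log (1 + ∑ i, ‖w i‖) ≤ 1 + ∑ i, ‖w i‖ := (Real.log_le_sub_one_of_pos (by linarith)).trans (by linarith)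
    have h5 : (d : ℝ) * Real.log (1 + ∑ i, ‖w i‖) ≤ d * (1 + ∑ i, ‖w i‖) := mul_le_mul_of_nonneg_left h4 (Nat.cast_nonneg d)
    have h6 : Real.log A * 1 ≤ Real.log A * (1 + ∑ i, ‖w i‖) := mul_le_mul_of_nonneg_left hpos h0
    linarith

end Pool.Agent.K9h46.TL
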