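import Pool.Agent.K9h46.TL.Stm

/-! leaf REF (helper46) -/

set_option autoImplicit false

open MeasureTheory Filter Topology

namespace Pool.Agent.K9h46.TL

theorem ref : S_REF := by
  intro P M hP h
  have hneg : MeasurePreserving (fun x : Ci => -x) (AddCircle.haarAddCircle (T := 1)) (AddCircle.haarAddCircle (T := 1)) :=
    Measure.measurePreserving_neg _
  have hint : Integrable (fun x : Ci => P (-x)) (AddCircle.haarAddCircle (T := 1)) :=
    hneg.integrable_comp_of_integrable hP
  refine ⟨?_, fun m hm => ?_⟩
  · refine Integrable.bdd_mul (c := 1) hint (fourier M).continuous.aestronglyMeasurable ?_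
    filter_upwards with x
    rw [fourier_apply, Circle.norm_coe]
  · have h1 : fourierCoeff (fun x : Ci => fourier M x * P (-x)) m = fourierCoeff P (M - m) := by
      unfold fourierCoeff
      have h2 : ∫ t : Ci, (fourier (-m) t : ℂ) • (fourier M t * P (-t)) ∂(AddCircle.haarAddCircle (T := 1)) =
          ∫ t : Ci, (fun u : Ci => (fourier (-(M - m)) u : ℂ) • P u) (-t) ∂(AddCircle.haarAddCircle (T := 1)) := by
        refine integral_congr_ae (Eventually.of_forall fun t => ?_)
        simp only [smul_eq_mul]
        rw [← mul_assoc, ← fourier_add]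
        congr 1
        have h3 : -m + M = -(-(M - m)) := by ring
        rw [h3, fourier_apply, fourier_apply, smul_neg, neg_smul (-(M - m)) t]
      rw [h2]
      exact integral_neg_eq_self (fun u : Ci => (fourier (-(M - m)) u : ℂ) • P u) _
    rw [h1]
    exact h _ (by omega)

end Pool.Agent.K9h46.TL
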