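import Mathlib
import Pool.Agent.K9h46.TL.Stm

/-!
# Leaf ZO: the zero-one law
-/

set_option autoImplicit false

open MeasureTheory Filter Topology

namespace Pool.Agent.K9h46.TL

namespace ZO_

/-- the Haar probability measure -/

theorem norm_arg (ρ : ℝ) (h0 : 0 ≤ ρ) (x : Ci) : ‖(ρ : ℂ) * fourier 1 x‖ = ρ := by
  rw [norm_mul, Complex.norm_real, Real.norm_of_nonneg h0]
  have : ‖(fourier 1 x : ℂ)‖ = 1 := Circle.norm_coe _
  rw [this, mul_one]

/-- a subsequence which converges almost everywhere -/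
theorem sub (H : S_CON) (A : S_ABL) (s : ℕ) (g : Fin s → Ci → ℂ) (hg : ∀ i, One (g i)) (ρ : ℕ → ℝ)
    (h0 : ∀ j, 0 ≤ ρ j) (h1 : ∀ j, ρ j < 1) (hl : Tendsto ρ atTop (𝓝 1)) :
    ∃ ns : ℕ → ℕ, StrictMono ns ∧ ∀ᵐ x ∂(AddCircle.haarAddCircle (T := 1) : Measure Ci), ∀ i,
      Tendsto (fun k => F (g i) ((ρ (ns k) : ℂ) * fourier 1 x)) atTop (𝓝 (g i x)) := by
  set h : ℕ → Ci → ℝ := fun j x => ∑ i, ‖F (g i) ((ρ j : ℂ) * fourier 1 x) - g i x‖ with hh
  have hcont : ∀ j i, Continuous (fun x : Ci => F (g i) ((ρ j : ℂ) * fourier 1 x)) := fun j i =>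
    ((A H (g i) (hg i)).1 (ρ j) (h0 j) (h1 j)).1
  have hint1 : ∀ j i, Integrable (fun x : Ci => F (g i) ((ρ j : ℂ) * fourier 1 x) - g i x) (AddCircle.haarAddCircle (T := 1) : Measure Ci) := by
    intro j i
    refine Integrable.sub ?_ (hg i).1
    exact (hcont j i).integrable_of_hasCompactSupport (HasCompactSupport.of_compactSpace _)
  have hint : ∀ j, Integrable (h j) (AddCircle.haarAddCircle (T := 1) : Measure Ci) := fun j => integrable_finsetSum _ fun i _ => (hint1 j i).norm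
  have hlim : Tendsto (fun j => ∫ x, h j x ∂(AddCircle.haarAddCircle (T := 1) : Measure Ci)) atTop (𝓝 0) := by
    have e : ∀ j, ∫ x, h j x ∂(AddCircle.haarAddCircle (T := 1) : Measure Ci) = ∑ i, ∫ x, ‖F (g i) ((ρ j : ℂ) * fourier 1 x) - g i x‖ ∂(AddCircle.haarAddCircle (T := 1) : Measure Ci) :=
      fun j => integral_finsetSum _ fun i _ => (hint1 j i).norm
    simp only [e]
    have h2 : Tendsto ρ atTop (𝓝[<] 1) :=
      tendsto_nhdsWithin_iff.2 ⟨hl, Eventually.of_forall fun j => h1 j⟩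
    have h3 := tendsto_finsetSum (Finset.univ : Finset (Fin s)) fun i _ => (A H (g i) (hg i)).2.comp h2
    simpa using h3
  have hm : TendstoInMeasure (AddCircle.haarAddCircle (T := 1) : Measure Ci) h atTop (fun _ => (0 : ℝ)) := by
    apply tendstoInMeasure_of_tendsto_eLpNorm one_ne_zero (fun j => (hint j).1)
      aestronglyMeasurable_const
    have e : ∀ j, eLpNorm (h j - fun _ => (0 : ℝ)) 1 (AddCircle.haarAddCircle (T := 1) : Measure Ci) = ENNReal.ofReal (∫ x, h j x ∂(AddCircle.haarAddCircle (T := 1) : Measure Ci)) := by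
      intro j
      rw [eLpNorm_one_eq_lintegral_enorm, ofReal_integral_eq_lintegral_ofReal (hint j)
        (Eventually.of_forall fun x => Finset.sum_nonneg fun i _ => norm_nonneg _)]
      apply lintegral_congr
      intro x
      simp only [Pi.sub_apply, sub_zero]
      rw [Real.enorm_eq_ofReal]
      exact Finset.sum_nonneg fun i _ => norm_nonneg _
    simp only [e]
    have := ENNReal.tendsto_ofReal hlim
    simpa using this
  obtain ⟨ns, hns, hae⟩ := hm.exists_seq_tendsto_ae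
  refine ⟨ns, hns, hae.mono fun x hx i => ?_⟩
  rw [tendsto_iff_norm_sub_tendsto_zero]
  refine squeeze_zero (fun k => norm_nonneg _) (fun k => ?_) hx
  exact Finset.single_le_sum (f := fun i => ‖F (g i) ((ρ (ns k) : ℂ) * fourier 1 x) - g i x‖)
    (fun _ _ => norm_nonneg _) (Finset.mem_univ i)

/-- the zeros are countable -/
theorem zeros (D : ℂ → ℂ) (hD : AnalyticOnNhd ℂ D (Metric.ball 0 1))
    (h : ∃ z ∈ Metric.ball (0 : ℂ) 1, D z ≠ 0) : {z | z ∈ Metric.ball (0 : ℂ) 1 ∧ D z = 0}.Countable := by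
  set S : Set ℂ := {z | z ∈ Metric.ball (0 : ℂ) 1 ∧ D z = 0} with hS
  have hd : DiscreteTopology S := by
    rw [discreteTopology_subtype_iff]
    intro z hz
    rcases (hD z hz.1).eventually_eq_zero_or_eventually_ne_zero with h1 | h1
    · exfalso
      obtain ⟨w, hw, hw'⟩ := h
      exact hw' (hD.eqOn_zero_of_preconnected_of_eventuallyEq_zero
        (convex_ball (0 : ℂ) 1).isPreconnected hz.1 h1 hw)
    · rw [← disjoint_iff, disjoint_principal_right]
      exact h1.mono fun w hw hw' => hw hw'.2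
  have : Countable S := (TopologicalSpace.separableSpace_iff_countable (α := S)).1 inferInstance
  exact Set.countable_coe_iff.1 this

/-- a sequence of radii without zeros -/
theorem radii (D : ℂ → ℂ) (hD : AnalyticOnNhd ℂ D (Metric.ball 0 1))
    (h : ∃ z ∈ Metric.ball (0 : ℂ) 1, D z ≠ 0) : ∃ ρ : ℕ → ℝ, (∀ j, 1 / 2 ≤ ρ j) ∧ (∀ j, ρ j < 1) ∧
      Tendsto ρ atTop (𝓝 1) ∧ ∀ j (x : Ci), D ((ρ j : ℂ) * fourier 1 x) ≠ 0 := by
  have hc : ((fun z : ℂ => ‖z‖) '' {z | z ∈ Metric.ball (0 : ℂ) 1 ∧ D z = 0}).Countable :=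
    (zeros D hD h).image _
  have hdense := hc.dense_compl ℝ
  have hex : ∀ j : ℕ, ∃ ρ : ℝ, 1 - 1 / ((j : ℝ) + 2) < ρ ∧ ρ < 1 ∧
      ρ ∉ (fun z : ℂ => ‖z‖) '' {z | z ∈ Metric.ball (0 : ℂ) 1 ∧ D z = 0} := by
    intro j
    have h2 : 1 - 1 / ((j : ℝ) + 2) < 1 := by
      have : 0 < 1 / ((j : ℝ) + 2) := by positivity
      linarith
    obtain ⟨ρ, hρ, hρ'⟩ := hdense.exists_between h2
    exact ⟨ρ, hρ'.1, hρ'.2, hρ⟩
  choose ρ hρ1 hρ2 hρ3 using hex
  have hhalf : ∀ j, 1 / 2 ≤ ρ j := by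
    intro j
    have h3 : 1 / ((j : ℝ) + 2) ≤ 1 / 2 := by
      apply one_div_le_one_div_of_le (by norm_num)
      have : (0 : ℝ) ≤ j := Nat.cast_nonneg j
      linarith
    have := hρ1 j
    linarith
  refine ⟨ρ, hhalf, hρ2, ?_, ?_⟩
  · have h3 : Tendsto (fun j : ℕ => 1 - 1 / ((j : ℝ) + 2)) atTop (𝓝 1) := by
      have h4 : Tendsto (fun j : ℕ => 1 / ((j : ℝ) + 2)) atTop (𝓝 0) := by
        have h5 : Tendsto (fun j : ℕ => (j : ℝ) + 2) atTop atTop :=
          tendsto_atTop_add_const_right _ _ tendsto_natCast_atTop_atTop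
        simp only [one_div]
        exact h5.inv_tendsto_atTop
      simpa using (tendsto_const_nhds (x := (1 : ℝ))).sub h4
    exact tendsto_of_tendsto_of_tendsto_of_le_of_le h3 tendsto_const_nhds (fun j => (hρ1 j).le)
      (fun j => (hρ2 j).le)
  · intro j x hx
    apply hρ3 j
    refine ⟨(ρ j : ℂ) * fourier 1 x, ⟨?_, hx⟩, norm_arg _ (by linarith [hhalf j]) x⟩
    rw [mem_ball_zero_iff, norm_arg _ (by linarith [hhalf j]) x]
    exact hρ2 j

end ZO_

open ZO_

theorem zo (h1 : S_CON) (h2 : S_ABL) (h3 : S_ANA) (h4 : S_JEN) (h5 : S_POL) : S_ZO := by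
  intro s g hg Q hQ
  set μ : Measure Ci := AddCircle.haarAddCircle (T := 1) with hμ
  set D : ℂ → ℂ := fun z => MvPolynomial.eval (fun i => F (g i) z) Q with hDdef
  have hD : AnalyticOnNhd ℂ D (Metric.ball 0 1) := fun z hz =>
    AnalyticAt.aeval_mvPolynomial (f := fun z i => F (g i) z) (fun i => h3 (g i) (hg i).1 z hz) Q
  have hball : ∀ ρ : ℝ, 0 ≤ ρ → ρ < 1 → ∀ x : Ci, (ρ : ℂ) * fourier 1 x ∈ Metric.ball (0 : ℂ) 1 := by
    intro ρ h0 h1 x
    rw [mem_ball_zero_iff, norm_arg ρ h0 x]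
    exact h1
  by_cases hz : ∃ z ∈ Metric.ball (0 : ℂ) 1, D z ≠ 0
  · exfalso
    obtain ⟨ρ, hρ0, hρ1, hρl, hρn⟩ := radii D hD hz
    have hρ0' : ∀ j, 0 ≤ ρ j := fun j => by linarith [hρ0 j]
    obtain ⟨ns, hns, hae⟩ := sub h1 h2 s g hg ρ hρ0' hρ1 hρl
    obtain ⟨C, hC⟩ := h4 D hD hz
    obtain ⟨C₁, hC₁, hpol⟩ := h5 s Q
    have hcont : ∀ j i, Continuous (fun x : Ci => F (g i) ((ρ j : ℂ) * fourier 1 x)) := fun j i =>
      ((h2 h1 (g i) (hg i)).1 (ρ j) (hρ0' j) (hρ1 j)).1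
    have hint : ∀ j i, Integrable (fun x : Ci => ‖F (g i) ((ρ j : ℂ) * fourier 1 x)‖) μ := fun j i =>
      ((hcont j i).integrable_of_hasCompactSupport (HasCompactSupport.of_compactSpace _)).norm
    set v : ℕ → Ci → ℝ := fun j x => C₁ * (1 + ∑ i, ‖F (g i) ((ρ j : ℂ) * fourier 1 x)‖) with hv
    set u : ℕ → Ci → ℝ := fun j x => Real.log ‖D ((ρ j : ℂ) * fourier 1 x)‖ with hu
    have hvint : ∀ j, Integrable (v j) μ := fun j =>
      ((integrable_const (1 : ℝ)).add (integrable_finsetSum _ fun i _ => hint j i)).const_mul C₁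
    have huint : ∀ j, Integrable (u j) μ := fun j => (hC (ρ j) (hρ0 j) (hρ1 j)).1
    have huv : ∀ j x, 0 ≤ v j x - u j x := fun j x => sub_nonneg.2 (hpol _)
    obtain ⟨K, hK⟩ : ∃ K : ℝ, K = C₁ * (1 + ∑ i, ∫ x : Ci, ‖g i x‖ ∂μ) + C := ⟨_, rfl⟩
    have hbound : ∀ j, ∫ x, (v j x - u j x) ∂μ ≤ K := by
      intro j
      rw [integral_sub (hvint j) (huint j)]
      have e1 : ∫ x, v j x ∂μ = C₁ * (1 + ∑ i, ∫ x, ‖F (g i) ((ρ j : ℂ) * fourier 1 x)‖ ∂μ) := by
        simp only [hv]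
        rw [integral_const_mul, integral_add (integrable_const _)
          (integrable_finsetSum _ fun i _ => hint j i), integral_finsetSum _ fun i _ => hint j i]
        simp
      have e2 : ∑ i, ∫ x, ‖F (g i) ((ρ j : ℂ) * fourier 1 x)‖ ∂μ ≤ ∑ i, ∫ x : Ci, ‖g i x‖ ∂μ :=
        Finset.sum_le_sum fun i _ => ((h2 h1 (g i) (hg i)).1 (ρ j) (hρ0' j) (hρ1 j)).2
      have e3 := (hC (ρ j) (hρ0 j) (hρ1 j)).2
      have e4 : C₁ * (1 + ∑ i, ∫ x, ‖F (g i) ((ρ j : ℂ) * fourier 1 x)‖ ∂μ) ≤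
          C₁ * (1 + ∑ i, ∫ x : Ci, ‖g i x‖ ∂μ) := by gcongr
      rw [e1, hK]
      change _ - (∫ x : Ci, Real.log ‖D ((ρ j : ℂ) * fourier 1 x)‖ ∂μ) ≤ _
      linarith
    -- Fatou
    have hmeas : ∀ k, Measurable (fun x => ENNReal.ofReal (v (ns k) x - u (ns k) x)) := by
      intro k
      apply ENNReal.measurable_ofReal.comp
      apply Measurable.sub
      · apply Continuous.measurable
        exact continuous_const.mul (continuous_const.add
          (continuous_finsetSum _ fun i _ => (hcont (ns k) i).norm))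
      · apply Real.measurable_log.comp
        apply Measurable.norm
        apply Continuous.measurable
        exact (MvPolynomial.continuous_eval Q).comp (continuous_pi fun i => hcont (ns k) i)
    have hF : ∫⁻ x, liminf (fun k => ENNReal.ofReal (v (ns k) x - u (ns k) x)) atTop ∂μ ≤
        ENNReal.ofReal K := by
      refine (lintegral_liminf_le hmeas).trans ?_
      have e : ∀ k, ∫⁻ x, ENNReal.ofReal (v (ns k) x - u (ns k) x) ∂μ ≤ ENNReal.ofReal K := by
        intro k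
        have e0 := ofReal_integral_eq_lintegral_ofReal (f := fun x => v (ns k) x - u (ns k) x)
          ((hvint (ns k)).sub (huint (ns k))) (Eventually.of_forall fun x => huv (ns k) x)
        rw [← e0]
        exact ENNReal.ofReal_le_ofReal (hbound _)
      calc liminf (fun k => ∫⁻ x, ENNReal.ofReal (v (ns k) x - u (ns k) x) ∂μ) atTop ≤
            liminf (fun _ : ℕ => ENNReal.ofReal K) atTop := liminf_le_liminf (Eventually.of_forall e)
        _ = _ := liminf_const _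
    have hfin : ∀ᵐ x ∂μ, liminf (fun k => ENNReal.ofReal (v (ns k) x - u (ns k) x)) atTop < ⊤ :=
      ae_lt_top (Measurable.liminf hmeas) (hF.trans_lt ENNReal.ofReal_lt_top).ne
    apply hQ
    have hnull : ∀ᵐ x ∂μ, MvPolynomial.eval (fun i => g i x) Q ≠ 0 := by
      filter_upwards [hae, hfin] with x hx hx' h0
      apply hx'.ne
      have t1 : Tendsto (fun k => D ((ρ (ns k) : ℂ) * fourier 1 x)) atTop (𝓝 0) := by
        rw [← h0]
        exact ((MvPolynomial.continuous_eval Q).tendsto _).comp (tendsto_pi_nhds.2 hx)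
      have t2 : Tendsto (fun k => ‖D ((ρ (ns k) : ℂ) * fourier 1 x)‖) atTop (𝓝[>] 0) := by
        rw [tendsto_nhdsWithin_iff]
        refine ⟨by simpa using t1.norm, Eventually.of_forall fun k => ?_⟩
        exact norm_pos_iff.2 (hρn _ x)
      have t3 : Tendsto (fun k => u (ns k) x) atTop atBot := Real.tendsto_log_nhdsGT_zero.comp t2
      have t4 : Tendsto (fun k => v (ns k) x - u (ns k) x) atTop atTop := by
        have t5 : Tendsto (fun k => - u (ns k) x) atTop atTop := tendsto_neg_atBot_atTop.comp t3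
        refine tendsto_atTop_mono (fun k => ?_) t5
        have : 0 ≤ v (ns k) x := by
          simp only [hv]
          positivity
        linarith
      exact (ENNReal.tendsto_ofReal_atTop.comp t4).liminf_eq
    have := ae_iff.1 hnull
    simpa using this
  · push Not at hz
    have hρl : Tendsto (fun j : ℕ => 1 - 1 / ((j : ℝ) + 1)) atTop (𝓝 1) := by
      simpa using (tendsto_const_nhds (x := (1 : ℝ))).sub tendsto_one_div_add_atTop_nhds_zero_nat
    have hρ1 : ∀ j : ℕ, 1 - 1 / ((j : ℝ) + 1) < 1 := fun j => by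
      have : 0 < 1 / ((j : ℝ) + 1) := by positivity
      linarith
    have hρ0 : ∀ j : ℕ, 0 ≤ 1 - 1 / ((j : ℝ) + 1) := fun j => by
      have h6 : 1 / ((j : ℝ) + 1) ≤ 1 := by
        rw [div_le_one (by positivity)]
        have : (0 : ℝ) ≤ j := Nat.cast_nonneg j
        linarith
      linarith
    obtain ⟨ns, hns, hae⟩ := sub h1 h2 s g hg _ hρ0 hρ1 hρl
    filter_upwards [hae] with x hx
    have t1 : Tendsto (fun k => D (((1 - 1 / ((ns k : ℝ) + 1) : ℝ) : ℂ) * fourier 1 x)) atTop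
        (𝓝 (MvPolynomial.eval (fun i => g i x) Q)) :=
      ((MvPolynomial.continuous_eval Q).tendsto _).comp (tendsto_pi_nhds.2 hx)
    have t2 : ∀ k, D (((1 - 1 / ((ns k : ℝ) + 1) : ℝ) : ℂ) * fourier 1 x) = 0 := fun k =>
      hz _ (hball _ (hρ0 _) (hρ1 _) x)
    simp only [t2] at t1
    exact tendsto_nhds_unique t1 tendsto_const_nhds

end Pool.Agent.K9h46.TL
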