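import Pool.Agent.K9h46.TL.Gen
import Pool.Agent.K9h46.TL.Per
import Pool.Agent.K9h46.TL.Crit
import Pool.Agent.K9h46.TL.ConP
import Pool.Agent.K9h46.TL.Abl
import Pool.Agent.K9h46.TL.Ana
import Pool.Agent.K9h46.TL.Jen
import Pool.Agent.K9h46.TL.Pol
import Pool.Agent.K9h46.TL.Zo
import Pool.Agent.K9h46.TL.Han
import Pool.Agent.K9h46.TL.Cir
import Pool.Agent.K9h46.TL.Ref
import Pool.Agent.K9h46.TL.Dir

/-! the uniqueness theorem (helper46) -/

set_option autoImplicit false

namespace Pool.Agent.K9h46.TL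

theorem dirc : S_DIRC := fun f β => dir (zo con abl ana jen pol) han cir ref f β

theorem unic : S_UNIC := fun f a b => uni dirc f a b

theorem unigen : S_UNIG := fun f s a b => unig dirc f s a b

end Pool.Agent.K9h46.TL
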