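import Pool.Agent.K9h46.TL.Stm
import Pool.Agent.W418.FMK.P3b

/-!
# Leaf ROW: zeros of the coefficients of the powers of a Blaschke factor, fixed power
-/

set_option autoImplicit false

open MeasureTheory Filter Topology Polynomial

namespace Pool.Agent.K9h46.TL

/-- the coefficient as a finite sum -/
theorem row_formula (r : ℝ) (hr : |r| < 1) (m k : ℕ) (hm : 1 ≤ m) :
    bc r m k = ∑ l ∈ Finset.range (k + 1), ((l + (m - 1)).choose (m - 1) : ℂ) * (r : ℂ) ^ l *
      ∑ i ∈ Finset.range (m + 1), if i + l = k then (m.choose i : ℂ) * (-(r : ℂ)) ^ (m - i) else 0 := by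
  have hec := FMT.cfe_cont k
  have hzc := FMT.cfz_cont
  let c : ℕ → ℂ := fun l => ((l + (m - 1)).choose (m - 1) : ℂ) * (r : ℂ) ^ l
  let g : ℕ → ℝ → ℂ := fun l x => c l * (FMT.cfe k x * (FMT.cfz x - r) ^ m * (FMT.cfz x) ^ l)
  have hm1 : m - 1 + 1 = m := by omega
  have hrn : ‖(r : ℂ)‖ < 1 := by rw [Complex.norm_real, Real.norm_eq_abs]; exact hr
  have hsum : ∀ x : ℝ, HasSum (fun l => g l x)
      (FMT.cfe k x * ((FMT.cfz x - r) / (1 - r * FMT.cfz x)) ^ m) := by
    intro x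
    have hq : ‖(r : ℂ) * FMT.cfz x‖ < 1 := by rw [norm_mul, FMT.cfz_norm, mul_one]; exact hrn
    have h1 := hasSum_choose_mul_geometric_of_norm_lt_one (m - 1) hq
    rw [hm1] at h1
    have h2 := h1.mul_left (FMT.cfe k x * (FMT.cfz x - r) ^ m)
    have e2 : FMT.cfe k x * (FMT.cfz x - r) ^ m * (1 / (1 - r * FMT.cfz x) ^ m) =
        FMT.cfe k x * ((FMT.cfz x - r) / (1 - r * FMT.cfz x)) ^ m := by
      rw [div_pow]; ring
    rw [e2] at h2
    have e3 : (fun l => g l x) = fun l => FMT.cfe k x * (FMT.cfz x - r) ^ m *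
        (((l + (m - 1)).choose (m - 1) : ℂ) * ((r : ℂ) * FMT.cfz x) ^ l) := by
      ext l
      simp only [g, c]
      rw [mul_pow]
      ring
    rw [e3]
    exact h2
  have hcs : Summable fun l => ‖c l‖ := by
    have h1 : Summable fun l : ℕ => ((l + (m - 1)).choose (m - 1) : ℝ) * |r| ^ l := by
      apply summable_choose_mul_geometric_of_norm_lt_one (m - 1)
      rw [Real.norm_eq_abs, abs_abs]
      exact hr
    refine h1.congr ?_
    intro l
    simp only [c]
    rw [norm_mul, norm_pow, Complex.norm_real, Real.norm_eq_abs, Complex.norm_natCast]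
  have hbd : ∀ l x, ‖g l x‖ ≤ ‖c l‖ * 2 ^ m := by
    intro l x
    show ‖c l * (FMT.cfe k x * (FMT.cfz x - r) ^ m * (FMT.cfz x) ^ l)‖ ≤ ‖c l‖ * 2 ^ m
    generalize c l = cl
    rw [norm_mul, norm_mul, norm_mul, FMT.cfe_norm, norm_pow, norm_pow, FMT.cfz_norm, one_pow, mul_one,
      one_mul]
    apply mul_le_mul_of_nonneg_left _ (norm_nonneg _)
    apply pow_le_pow_left₀ (norm_nonneg _)
    calc ‖FMT.cfz x - r‖ ≤ ‖FMT.cfz x‖ + ‖(r : ℂ)‖ := norm_sub_le _ _
      _ ≤ 2 := by rw [FMT.cfz_norm]; linarith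
  have hint : HasSum (fun l => ∫ x in (0:ℝ)..1, g l x)
      (∫ x in (0:ℝ)..1, FMT.cfe k x * ((FMT.cfz x - r) / (1 - r * FMT.cfz x)) ^ m) := by
    apply intervalIntegral.hasSum_integral_of_dominated_convergence (fun l _ => ‖c l‖ * 2 ^ m)
    · intro l
      exact (by simp only [g]; fun_prop : Continuous (g l)).aestronglyMeasurable
    · intro l
      exact Filter.Eventually.of_forall fun x _ => hbd l x
    · exact Filter.Eventually.of_forall fun x _ => hcs.mul_right _
    · exact intervalIntegrable_const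
    · exact Filter.Eventually.of_forall fun x _ => hsum x
  have hv : ∀ l, (∫ x in (0:ℝ)..1, g l x) = c l * ∑ i ∈ Finset.range (m + 1),
      if i + l = k then (m.choose i : ℂ) * (-(r : ℂ)) ^ (m - i) else 0 := by
    intro l
    simp only [g]
    rw [intervalIntegral.integral_const_mul, FMT.cf_int_term]
  change (∫ x in (0:ℝ)..1, FMT.cfe k x * ((FMT.cfz x - r) / (1 - r * FMT.cfz x)) ^ m) = _
  rw [← hint.tsum_eq, tsum_eq_sum (s := Finset.range (k + 1))]
  · refine Finset.sum_congr rfl fun l _ => ?_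
    rw [hv l]
  · intro l hl
    rw [hv l]
    rw [Finset.mem_range] at hl
    rw [Finset.sum_eq_zero, mul_zero]
    intro i _
    rw [if_neg (by omega)]

/-- for `k ≥ m` the coefficient is a power of `r` times the value of a polynomial at `k` -/
theorem row_poly (r : ℝ) (hr : |r| < 1) (hr0 : r ≠ 0) (m k : ℕ) (hm : 1 ≤ m) (hk : m ≤ k) :
    ((m - 1).factorial : ℂ) * bc r m k = (r : ℂ) ^ (k - m) *
      (∑ i ∈ Finset.range (m + 1), C ((m.choose i : ℂ) * (-(r : ℂ) ^ 2) ^ (m - i)) *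
        (ascPochhammer ℂ (m - 1)).comp (X + C (1 - (i : ℂ)))).eval (k : ℂ) := by
  rw [row_formula r hr m k hm]
  have h1 : ∀ l ∈ Finset.range (k + 1), ((l + (m - 1)).choose (m - 1) : ℂ) * (r : ℂ) ^ l *
      ∑ i ∈ Finset.range (m + 1), (if i + l = k then (m.choose i : ℂ) * (-(r : ℂ)) ^ (m - i) else 0) =
      ∑ i ∈ Finset.range (m + 1), if i + l = k then
        ((k - i + (m - 1)).choose (m - 1) : ℂ) * (r : ℂ) ^ (k - i) *
          ((m.choose i : ℂ) * (-(r : ℂ)) ^ (m - i)) else 0 := by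
    intro l _
    rw [Finset.mul_sum]
    refine Finset.sum_congr rfl fun i _ => ?_
    split_ifs with h
    · have : l = k - i := by omega
      rw [this]
    · rw [mul_zero]
  rw [Finset.sum_congr rfl h1, Finset.sum_comm, eval_finsetSum, Finset.mul_sum, Finset.mul_sum]
  refine Finset.sum_congr rfl fun i hi => ?_
  rw [Finset.mem_range] at hi
  have h2 : ∑ l ∈ Finset.range (k + 1), (if i + l = k then
        ((k - i + (m - 1)).choose (m - 1) : ℂ) * (r : ℂ) ^ (k - i) *
          ((m.choose i : ℂ) * (-(r : ℂ)) ^ (m - i)) else 0) =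
      ((k - i + (m - 1)).choose (m - 1) : ℂ) * (r : ℂ) ^ (k - i) *
          ((m.choose i : ℂ) * (-(r : ℂ)) ^ (m - i)) := by
    rw [Finset.sum_eq_single (k - i)]
    · rw [if_pos (by omega)]
    · intro l _ hl
      rw [if_neg (by omega)]
    · intro h
      exact absurd (Finset.mem_range.2 (by omega)) h
  rw [h2]
  have h3 : (ascPochhammer ℂ (m - 1)).eval ((k : ℂ) + (1 - (i : ℂ))) =
      ((m - 1).factorial : ℂ) * ((k - i + (m - 1)).choose (m - 1) : ℂ) := by
    have e1 : (k : ℂ) + (1 - (i : ℂ)) = ((k - i + 1 : ℕ) : ℂ) := by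
      rw [Nat.cast_add, Nat.cast_sub (by omega : i ≤ k)]
      push_cast
      ring
    rw [e1, ← ascPochhammer_eval_cast, ascPochhammer_nat_eq_ascFactorial,
      Nat.ascFactorial_eq_factorial_mul_choose]
    push_cast
    ring
  rw [eval_mul, eval_C, eval_comp, eval_add, eval_X, eval_C, h3]
  have h4 : (r : ℂ) ^ (k - i) * (-(r : ℂ)) ^ (m - i) =
      (r : ℂ) ^ (k - m) * (-(r : ℂ) ^ 2) ^ (m - i) := by
    have e1 : k - i = (k - m) + (m - i) := by omega
    rw [e1, pow_add, mul_assoc, ← mul_pow]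
    congr 2
    ring
  calc ((m - 1).factorial : ℂ) * (((k - i + (m - 1)).choose (m - 1) : ℂ) * (r : ℂ) ^ (k - i) *
        ((m.choose i : ℂ) * (-(r : ℂ)) ^ (m - i)))
      = ((m - 1).factorial : ℂ) * ((k - i + (m - 1)).choose (m - 1) : ℂ) * (m.choose i : ℂ) *
        ((r : ℂ) ^ (k - i) * (-(r : ℂ)) ^ (m - i)) := by ring
    _ = _ := by rw [h4]; ring

/-- Leaf ROW. -/
theorem row : S_ROW := by
  intro r hr hr0 m hm
  obtain ⟨R, hR⟩ : ∃ R : ℂ[X], R = ∑ i ∈ Finset.range (m + 1), C ((m.choose i : ℂ) * (-(r : ℂ) ^ 2) ^ (m - i)) *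
        (ascPochhammer ℂ (m - 1)).comp (X + C (1 - (i : ℂ))) := ⟨_, rfl⟩
  have hcoef : R.coeff (m - 1) = (1 - (r : ℂ) ^ 2) ^ m := by
    rw [hR, finsetSum_coeff]
    have h1 : ∀ i ∈ Finset.range (m + 1), (C ((m.choose i : ℂ) * (-(r : ℂ) ^ 2) ^ (m - i)) *
        (ascPochhammer ℂ (m - 1)).comp (X + C (1 - (i : ℂ)))).coeff (m - 1) =
        (1 : ℂ) ^ i * (-(r : ℂ) ^ 2) ^ (m - i) * (m.choose i : ℂ) := by
      intro i _
      rw [coeff_C_mul]
      have h2 : ((ascPochhammer ℂ (m - 1)).comp (X + C (1 - (i : ℂ)))).coeff (m - 1) = 1 := by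
        have h3 := (monic_ascPochhammer ℂ (m - 1)).comp_X_add_C (1 - (i : ℂ))
        have h4 : ((ascPochhammer ℂ (m - 1)).comp (X + C (1 - (i : ℂ)))).natDegree = m - 1 := by
          rw [natDegree_comp, natDegree_X_add_C, mul_one, ascPochhammer_natDegree]
        have h5 := h3.coeff_natDegree
        rw [h4] at h5
        exact h5
      rw [h2]
      ring
    rw [Finset.sum_congr rfl h1, ← add_pow]
    congr 1
  have hne : R ≠ 0 := by
    intro h0
    rw [h0, coeff_zero] at hcoef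
    have h1 : (1 : ℂ) - (r : ℂ) ^ 2 = 0 := pow_eq_zero_iff (by omega : m ≠ 0) |>.1 hcoef.symm
    have h2 : (1 : ℝ) - r ^ 2 = 0 := by exact_mod_cast h1
    have h3 : r ^ 2 < 1 := (sq_lt_one_iff_abs_lt_one r).2 hr
    linarith
  have hfin : {k : ℕ | R.eval (k : ℂ) = 0}.Finite := by
    have h1 : {z : ℂ | R.eval z = 0}.Finite := by
      refine (R.roots.toFinset.finite_toSet).subset fun z hz => ?_
      rw [Finset.mem_coe, Multiset.mem_toFinset, mem_roots hne]
      exact hz
    exact h1.preimage (Nat.cast_injective.injOn)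
  refine (hfin.union (Set.finite_lt_nat m)).subset fun k hk => ?_
  rcases Nat.lt_or_ge k m with h | h
  · exact Or.inr h
  · left
    have h1 := row_poly r hr hr0 m k hm h
    rw [← hR] at h1
    have h2 : bc r m k = 0 := hk
    rw [h2, mul_zero] at h1
    have h3 : (r : ℂ) ^ (k - m) ≠ 0 := pow_ne_zero _ (by exact_mod_cast hr0)
    exact (mul_eq_zero.1 h1.symm).resolve_left h3

end Pool.Agent.K9h46.TL
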