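import Pool.Agent.K9h46.TL.Stm

/-! leaf UNI (helper46) -/

set_option autoImplicit false

open MeasureTheory Filter Topology

namespace Pool.Agent.K9h46.TL

theorem ft_scale (f : ℝ → ℂ) {a : ℝ} (ha : 0 < a) (s : ℝ) : ft (fun x => f (x / a)) s = (a : ℂ) * ft f (a * s) := by
  unfold ft
  have h := Measure.integral_comp_div (fun y : ℝ => f y * Complex.exp (-(2 * Real.pi * (a * s) * y : ℝ) * Complex.I)) a
  rw [abs_of_pos ha] at h
  have h2 : ∀ x : ℝ, f (x / a) * Complex.exp (-(2 * Real.pi * s * x : ℝ) * Complex.I) =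
      f (x / a) * Complex.exp (-(2 * Real.pi * (a * s) * (x / a) : ℝ) * Complex.I) := by
    intro x
    have : 2 * Real.pi * (a * s) * (x / a) = 2 * Real.pi * s * x := by field_simp
    rw [this]
  rw [integral_congr_ae (Eventually.of_forall h2), h]
  rw [Complex.real_smul]

theorem vol_scale (f : ℝ → ℂ) {a : ℝ} (ha : 0 < a) :
    volume {x | f (x / a) ≠ 0} = ENNReal.ofReal a * volume {x | f x ≠ 0} := by
  have h1 : {x : ℝ | f (x / a) ≠ 0} = (fun x => a⁻¹ * x) ⁻¹' {x | f x ≠ 0} := by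
    ext x
    simp only [Set.mem_preimage, Set.mem_ofPred_eq]
    rw [div_eq_inv_mul]
  rw [h1, Real.volume_preimage_mul_left (inv_ne_zero ha.ne'), inv_inv, abs_of_pos ha]

/-- one direction, scaled -/
theorem one_dir (hd : S_DIRC) (f : ℝ → ℂ) {a b : ℝ} (ha : 0 < a) (hba : Irrational (b / a)) (hf : Integrable f)
    (hs : volume {x | f x ≠ 0} < ⊤) (h : ∀ n : ℕ, 1 ≤ n → {m : ℕ | ft f (a * m + b * n) ≠ 0}.Finite) :
    ∃ N : ℕ, ENNReal.ofReal a * volume {x | f x ≠ 0} = N := by
  rw [← vol_scale f ha]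
  refine hd (fun x => f (x / a)) (b / a) (hf.comp_div ha.ne') ?_ hba fun n hn => ?_
  · rw [vol_scale f ha]
    exact ENNReal.mul_lt_top ENNReal.ofReal_lt_top hs
  · obtain ⟨M, hM⟩ := (h n hn).bddAbove
    refine ⟨M, fun m hm => ?_⟩
    obtain ⟨m', rfl⟩ : ∃ m' : ℕ, m = m' := ⟨m.toNat, by omega⟩
    rw [ft_scale f ha]
    have h1 : a * ((n : ℝ) * (b / a) + ((m' : ℤ) : ℝ)) = a * m' + b * n := by
      push_cast
      field_simp
      ring
    rw [h1]
    have h2 : ft f (a * m' + b * n) = 0 := by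
      by_contra hcon
      have h3 : m' ≤ M := hM hcon
      omega
    rw [h2, mul_zero]

theorem uni : S_UNI := by
  intro hd f a b ha hb hab hf hs h1 h2
  have hba : Irrational (b / a) := by
    have := hab.inv
    rwa [inv_div] at this
  obtain ⟨N, hN⟩ := one_dir hd f ha hba hf hs h2
  obtain ⟨N', hN'⟩ := one_dir hd f hb hab hf hs (fun m hm => by
    refine (h1 m hm).subset fun n hn => ?_
    rw [Set.mem_ofPred_eq] at hn ⊢
    rwa [add_comm])
  set v : ℝ := (volume {x | f x ≠ 0}).toReal with hv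
  have e1 : a * v = N := by
    have := congrArg ENNReal.toReal hN
    rwa [ENNReal.toReal_mul, ENNReal.toReal_ofReal ha.le, ENNReal.toReal_natCast] at this
  have e2 : b * v = N' := by
    have := congrArg ENNReal.toReal hN'
    rwa [ENNReal.toReal_mul, ENNReal.toReal_ofReal hb.le, ENNReal.toReal_natCast] at this
  have hv0 : v = 0 := by
    by_contra hne
    apply hab
    refine ⟨(N : ℚ) / N', ?_⟩
    have hN'0 : (N' : ℝ) ≠ 0 := by
      rw [← e2]
      exact mul_ne_zero hb.ne' hne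
    push_cast
    rw [← e1, ← e2]
    field_simp
  have h0 : volume {x | f x ≠ 0} = 0 := by
    rcases (ENNReal.toReal_eq_zero_iff _).1 hv0 with h | h
    · exact h
    · exact absurd h hs.ne
  rw [Filter.EventuallyEq, ae_iff]
  exact h0

end Pool.Agent.K9h46.TL
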